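import Pool.Agent.Helper19K9.Sq.Pw

/-!
The radical of the value of an irreducible bihomogeneous form is large at almost all points.
-/

set_option autoImplicit false
set_option linter.all false
set_option maxHeartbeats 4000000

namespace Pool.Agent.Helper19K9.Sq

open MvPolynomial Pool.Agent.TH910.Voj Pool.Agent.H813R3.Voj

/-- the largest possible multiplicity of a large prime -/
def mu (d : ℕ) : ℕ := max 1 (d / 2)

lemma mu_pos (d : ℕ) : 1 ≤ mu d := le_max_left _ _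

lemma mu_spec (d : ℕ) : 2 * d + 2 ≤ 4 * (mu d + 1) := by
  unfold mu
  have := le_max_left 1 (d / 2)
  have := le_max_right 1 (d / 2)
  omega

lemma not_dvd_aux {F : MvPolynomial (Fin 4) ℤ} {d : ℕ} (hF : F.IsHomogeneous (d + 1))
    (hirr : Irreducible (toQ F)) (h0 : pderiv 0 F ≠ 0) : ¬ toQ F ∣ toQ (X 1 * pderiv 0 F) := by
  intro hdvd
  have hFQ : (toQ F).IsHomogeneous (d + 1) := hF.map _
  have hF0 : toQ F ≠ 0 := hirr.ne_zero
  have hdeg : (toQ F).totalDegree = d + 1 := hFQ.totalDegree hF0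
  have hp0 : pderiv 0 (toQ F) ≠ 0 := by
    intro h
    rw [toQ, pderiv_map] at h
    exact h0 (toQ_injective (h.trans (map_zero _).symm))
  have hprime := hirr.prime
  rw [map_mul] at hdvd
  rcases hprime.dvd_or_dvd hdvd with h | h
  · obtain ⟨H, hH⟩ := h
    have hX : toQ (X 1 : MvPolynomial (Fin 4) ℤ) = X 1 := by simp [toQ]
    rw [hX] at hH
    have hH0 : H ≠ 0 := by
      rintro rfl
      rw [mul_zero] at hH
      exact X_ne_zero 1 hH
    have h1 := congrArg totalDegree hH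
    rw [totalDegree_mul_of_isDomain hF0 hH0, totalDegree_X, hdeg] at h1
    have h2 : H.totalDegree = 0 := by omega
    rw [totalDegree_eq_zero_iff_eq_C] at h2
    have h3 := congrArg (pderiv 0) hH
    rw [h2, pderiv_X, pderiv_mul, pderiv_C, mul_zero, add_zero] at h3
    have h4 : (Pi.single (1 : Fin 4) (1 : MvPolynomial (Fin 4) ℚ) : Fin 4 → _) 0 = 0 := by simp
    rcases mul_eq_zero.1 (h3.symm.trans (by simp)) with h5 | h5
    · exact hp0 h5
    · exact hH0 (h2.trans h5)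
  · obtain ⟨H, hH⟩ := h
    have hpd : toQ (pderiv 0 F) = pderiv 0 (toQ F) := by rw [toQ, pderiv_map]
    rw [hpd] at hH
    have hH0 : H ≠ 0 := by
      rintro rfl
      rw [mul_zero] at hH
      exact hp0 hH
    have h1 := congrArg totalDegree hH
    have hhom : (pderiv 0 (toQ F)).IsHomogeneous d := by
      have := hFQ.pderiv (i := 0)
      simpa using this
    rw [totalDegree_mul_of_isDomain hF0 hH0, hhom.totalDegree hp0, hdeg] at h1
    omega

theorem sparse_rad0 {F : MvPolynomial (Fin 4) ℤ} {a b : ℕ} (h : Bi F (a + 1) b)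
    (hirr : Irreducible (toQ F)) (h0 : pderiv 0 F ≠ 0) {ε : ℝ} (hε : 0 < ε) :
    Sparse 4 (fun B x => IsCoprime (x 0) (x 1) ∧
      (rd (eval x F).natAbs : ℝ) < (B : ℝ) ^ (((a + 1 + b : ℕ) : ℝ) / mu (a + 1 + b) - ε)) := by
  classical
  set d := a + 1 + b with hd
  set m := mu d with hm
  have hm1 : 1 ≤ m := mu_pos d
  have hmR : (1 : ℝ) ≤ m := by exact_mod_cast hm1
  have hmR0 : (0 : ℝ) < m := by linarith
  set c : ℝ := min (ε / 3) (1 / (m + 1)) with hc
  have hc0 : 0 < c := by rw [hc]; positivity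
  have hcε : 3 * c ≤ ε := by
    have := min_le_left (ε / 3) (1 / ((m : ℝ) + 1))
    rw [← hc] at this
    linarith
  have hcm : c * (m + 1) ≤ 1 := by
    have := min_le_right (ε / 3) (1 / ((m : ℝ) + 1))
    rw [← hc, le_div_iff₀ (by positivity)] at this
    exact this
  have hc1 : c ≤ 1 := by nlinarith
  have hhom : F.IsHomogeneous d := h.hom
  obtain ⟨CF, hCF1, hCF⟩ := exists_eval_bound F hhom.totalDegree_le
  have hd1 : (1 : ℝ) ≤ d := by
    have : 1 ≤ d := by omega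
    exact_mod_cast this
  have s1 := sparse_small (n := 3) F (k := d) (by omega) hhom hirr hc0 (by linarith)
  have hnd : ¬ toQ F ∣ toQ (X 1 * pderiv 0 F) := by
    refine not_dvd_aux (d := a + b) ?_ hirr h0
    rw [show a + b + 1 = d by omega]
    exact hhom
  have s2 := sparse_part (n := 3) F (X 1 * pderiv 0 F) hhom hirr hnd hc0 hc1
  have s3 := sparse_pw h hc0 (by linarith)
  refine ((s1.or s2).or s3).of_eventually (CF ^ 2 + 1) ?_
  rintro B x hB₀ hB hx ⟨hco, hrad⟩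
  by_contra hcon
  push Not at hcon
  obtain ⟨⟨h1, h2⟩, h3⟩ := hcon
  have hB1 : (1 : ℝ) ≤ B := by exact_mod_cast hB
  have hB0 : (0 : ℝ) < B := by linarith
  set n := (eval x F).natAbs with hn
  have hn0 : n ≠ 0 := by
    intro h0
    rw [h0, Nat.cast_zero] at h1
    have : (0 : ℝ) < (B : ℝ) ^ ((d : ℝ) - c) := by positivity
    linarith
  have hF0 : eval x F ≠ 0 := by rwa [hn, Ne, Int.natAbs_eq_zero] at hn0
  -- the decomposition of `n`
  set w := ∏ p ∈ n.primeFactors.filter (fun p : ℕ => (p : ℤ) ∣ eval x (X 1 * pderiv 0 F)),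
    p ^ n.factorization p with hw
  set n' := ∏ p ∈ n.primeFactors.filter (fun p : ℕ => ¬ (p : ℤ) ∣ eval x (X 1 * pderiv 0 F)),
    p ^ n.factorization p with hn'
  have hwn : w * n' = n := by
    rw [hw, hn', Finset.prod_filter_mul_prod_filter_not]
    exact Nat.prod_factorization_pow_eq_self hn0
  have hw0 : w ≠ 0 := by rintro h; rw [h, zero_mul] at hwn; exact hn0 hwn.symm
  have hn'0 : n' ≠ 0 := by rintro h; rw [h, mul_zero] at hwn; exact hn0 hwn.symm
  have hpw : ∀ p : ℕ, p.Prime → p ∣ w → (p : ℤ) ∣ eval x (X 1 * pderiv 0 F) := by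
    intro p hp hpd
    rw [hw, hp.prime.dvd_finsetProd_iff] at hpd
    obtain ⟨q, hq, hpq⟩ := hpd
    rw [Finset.mem_filter] at hq
    rw [(Nat.prime_dvd_prime_iff_eq hp (Nat.prime_of_mem_primeFactors hq.1)).1
      (hp.dvd_of_dvd_pow hpq)]
    exact hq.2
  have hpn' : ∀ p : ℕ, p.Prime → p ∣ n' → ¬ (p : ℤ) ∣ eval x (X 1 * pderiv 0 F) := by
    intro p hp hpd
    rw [hn', hp.prime.dvd_finsetProd_iff] at hpd
    obtain ⟨q, hq, hpq⟩ := hpd
    rw [Finset.mem_filter] at hq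
    rw [(Nat.prime_dvd_prime_iff_eq hp (Nat.prime_of_mem_primeFactors hq.1)).1
      (hp.dvd_of_dvd_pow hpq)]
    exact hq.2
  have hnF : (n : ℤ) ∣ eval x F := by rw [hn]; exact Int.natAbs_dvd.2 dvd_rfl
  have hwB : (w : ℝ) ≤ (B : ℝ) ^ c := by
    by_contra hlt
    push Not at hlt
    refine absurd hlt (not_lt.2 (h2 hF0 w ?_ hpw))
    exact (Int.natCast_dvd_natCast.2 ⟨n', hwn.symm⟩).trans hnF
  have hrd : rd n' ≤ rd n := rd_le_of_dvd hn0 (fun p _ hp => hp.trans ⟨w, by rw [← hwn, mul_comm]⟩) hn'0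
  have hnub : (n : ℝ) ≤ CF * (B : ℝ) ^ d := by exact_mod_cast hCF B hB x hx
  have hn'n : (n' : ℝ) ≤ n := by
    exact_mod_cast Nat.le_of_dvd (Nat.pos_of_ne_zero hn0) ⟨w, by rw [← hwn, mul_comm]⟩
  have hkey := rad_of_no_pw (n := n') (m := m) hn'0 hm1 (L := (B : ℝ) ^ c) (U := (B : ℝ) ^ (4 - c))
    (Real.one_le_rpow hB1 hc0.le) (by
      rw [← Real.rpow_natCast, ← Real.rpow_mul hB0.le]
      refine Real.rpow_le_rpow_of_exponent_le hB1 ?_
      push_cast
      linarith) (by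
      intro s hs hsn
      by_contra hcon
      push Not at hcon
      refine h3 hco s hs hcon.1 hcon.2 ?_ ?_
      · exact (Int.natCast_dvd_natCast.2 (hsn.trans ⟨w, by rw [← hwn, mul_comm]⟩)).trans hnF
      · have : (x 1 * eval x (pderiv 0 F)) = eval x (X 1 * pderiv 0 F) := by
          rw [map_mul, eval_X]
        rw [this, Int.isCoprime_iff_gcd_eq_one]
        by_contra hne
        obtain ⟨p, hp, hpd⟩ := Nat.exists_prime_and_dvd hne
        have e1 : (p : ℤ) ∣ s := (Int.natCast_dvd_natCast.2 hpd).trans (Int.gcd_dvd_left _ _)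
        have e2 : (p : ℤ) ∣ eval x (X 1 * pderiv 0 F) :=
          (Int.natCast_dvd_natCast.2 hpd).trans (Int.gcd_dvd_right _ _)
        exact hpn' p hp ((Int.natCast_dvd_natCast.1 e1).trans hsn) e2) (by
      have e1 : (n' : ℝ) ^ 2 ≤ (CF * (B : ℝ) ^ d) ^ 2 :=
        pow_le_pow_left₀ (Nat.cast_nonneg _) (hn'n.trans hnub) _
      refine lt_of_le_of_lt e1 ?_
      rw [← Real.rpow_natCast ((B : ℝ) ^ (4 - c)), ← Real.rpow_mul hB0.le, mul_pow, ← pow_mul]
      have e2 : ((CF : ℝ)) ^ 2 < B := by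
        have : (CF ^ 2 + 1 : ℕ) ≤ B := hB₀
        have : ((CF ^ 2 + 1 : ℕ) : ℝ) ≤ B := by exact_mod_cast this
        push_cast at this
        linarith
      have e3 : (B : ℝ) * (B : ℝ) ^ (d * 2) ≤ (B : ℝ) ^ ((4 - c) * ((m + 1 : ℕ) : ℝ)) := by
        have e4 : (B : ℝ) * (B : ℝ) ^ (d * 2) = (B : ℝ) ^ (((d * 2 + 1 : ℕ) : ℝ)) := by
          rw [Real.rpow_natCast, pow_succ]; ring
        rw [e4]
        refine Real.rpow_le_rpow_of_exponent_le hB1 ?_
        have e5 : ((2 * d + 2 : ℕ) : ℝ) ≤ ((4 * (m + 1) : ℕ) : ℝ) := by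
          exact_mod_cast mu_spec d
        push_cast at e5 ⊢
        nlinarith
      refine lt_of_lt_of_le (mul_lt_mul_of_pos_right e2 (by positivity)) e3)
  -- conclusion
  have e1 : (B : ℝ) ^ ((d : ℝ) - c) < w * n' := by
    rw [← Nat.cast_mul, hwn]
    exact h1
  have e2 : (B : ℝ) ^ ((d : ℝ) - c) < (B : ℝ) ^ c * ((B : ℝ) ^ c * (rd n : ℝ) ^ m) := by
    refine lt_of_lt_of_le e1 (mul_le_mul hwB (hkey.trans ?_) (Nat.cast_nonneg _) (by positivity))
    refine mul_le_mul_of_nonneg_left ?_ (by positivity)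
    exact pow_le_pow_left₀ (Nat.cast_nonneg _) (by exact_mod_cast hrd) _
  have e3 : (rd n : ℝ) ^ m ≤ (B : ℝ) ^ ((d : ℝ) - m * ε) := by
    have e4 : (rd n : ℝ) ^ m ≤ ((B : ℝ) ^ ((d : ℝ) / m - ε)) ^ m :=
      pow_le_pow_left₀ (Nat.cast_nonneg _) hrad.le _
    refine e4.trans (le_of_eq ?_)
    rw [← Real.rpow_natCast, ← Real.rpow_mul hB0.le]
    congr 1
    field_simp
  have e5 : (B : ℝ) ^ c * ((B : ℝ) ^ c * (rd n : ℝ) ^ m) ≤ (B : ℝ) ^ ((d : ℝ) - c) := by
    calc (B : ℝ) ^ c * ((B : ℝ) ^ c * (rd n : ℝ) ^ m) ≤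
          (B : ℝ) ^ c * ((B : ℝ) ^ c * (B : ℝ) ^ ((d : ℝ) - m * ε)) :=
          mul_le_mul_of_nonneg_left (mul_le_mul_of_nonneg_left e3 (by positivity)) (by positivity)
      _ = (B : ℝ) ^ (c + (c + ((d : ℝ) - m * ε))) := by
          rw [Real.rpow_add hB0, Real.rpow_add hB0]
      _ ≤ _ := by
          refine Real.rpow_le_rpow_of_exponent_le hB1 ?_
          nlinarith
  linarith

/-! ### permutations of the coordinates -/

lemma sparse_perm {P : ℕ → (Fin 4 → ℤ) → Prop} (h : Sparse 4 P) (σ : Equiv.Perm (Fin 4)) :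
    Sparse 4 (fun B x => P B (x ∘ σ)) := by
  obtain ⟨c, hc, C, hC, h⟩ := h
  refine ⟨c, hc, C, hC, fun B hB => le_trans ?_ (h B hB)⟩
  have h1 : Set.ncard {x | x ∈ box 4 B ∧ P B (x ∘ σ)} ≤ Set.ncard {x | x ∈ box 4 B ∧ P B x} := by
    refine Set.ncard_le_ncard_of_injOn (fun x : Fin 4 → ℤ => x ∘ σ) ?_ ?_ (finite_sub 4 B _)
    · rintro x ⟨h1, h2⟩
      refine ⟨?_, h2⟩
      rw [mem_box] at h1 ⊢
      exact fun i => h1 (σ i)
    · intro x _ y _ hxy
      exact σ.surjective.injective_comp_right hxy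
  exact_mod_cast h1

lemma Bi.of_exps {F : MvPolynomial (Fin 4) ℤ} {a b : ℕ}
    (h : ∀ d : Fin 4 →₀ ℕ, coeff d F ≠ 0 → d 0 + d 1 = a ∧ d 2 + d 3 = b) : Bi F a b := by
  constructor
  · intro d hd
    rw [Finsupp.weight_apply, Finsupp.sum_fintype _ _ (by simp)]
    simp [Fin.sum_univ_four]
    exact (h d hd).1
  · intro d hd
    rw [Finsupp.weight_apply, Finsupp.sum_fintype _ _ (by simp)]
    simp [Fin.sum_univ_four]
    exact (h d hd).2

lemma exps_rename {F : MvPolynomial (Fin 4) ℤ} (σ : Equiv.Perm (Fin 4)) {d : Fin 4 →₀ ℕ}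
    (hd : coeff d (rename σ F) ≠ 0) : ∃ u : Fin 4 →₀ ℕ, coeff u F ≠ 0 ∧ ∀ j, d (σ j) = u j := by
  obtain ⟨u, hu, hu2⟩ := coeff_rename_ne_zero σ F d hd
  refine ⟨u, hu2, fun j => ?_⟩
  rw [← hu, Finsupp.mapDomain_apply σ.injective]

lemma irr_rename {F : MvPolynomial (Fin 4) ℤ} (hF : Irreducible (toQ F)) (σ : Equiv.Perm (Fin 4)) :
    Irreducible (toQ (rename σ F)) := by
  have h1 : toQ (rename σ F) = renameEquiv ℚ σ (toQ F) := by
    rw [toQ, map_rename]
    rfl
  rw [h1]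
  exact (MulEquiv.irreducible_iff (renameEquiv ℚ σ)).2 hF

lemma sparse_rad_perm {F : MvPolynomial (Fin 4) ℤ} {a b a' b' : ℕ} (σ : Equiv.Perm (Fin 4))
    (h' : Bi (rename σ F) (a' + 1) b') (hab : a' + 1 + b' = a + b)
    (hirr : Irreducible (toQ F)) (h0 : pderiv (σ.symm 0) F ≠ 0)
    (hco : ∀ x : Fin 4 → ℤ, IsCoprime (x 0) (x 1) → IsCoprime (x 2) (x 3) →
      IsCoprime (x (σ.symm 0)) (x (σ.symm 1))) {ε : ℝ} (hε : 0 < ε) :
    Sparse 4 (fun B x => IsCoprime (x 0) (x 1) ∧ IsCoprime (x 2) (x 3) ∧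
      (rd (eval x F).natAbs : ℝ) < (B : ℝ) ^ (((a + b : ℕ) : ℝ) / mu (a + b) - ε)) := by
  have h1 : pderiv 0 (rename σ F) ≠ 0 := by
    have h2 : pderiv 0 (rename σ F) = rename σ (pderiv (σ.symm 0) F) := by
      have h3 := pderiv_rename (R := ℤ) σ.injective (σ.symm 0) F
      rw [Equiv.apply_symm_apply] at h3
      exact h3
    rw [h2]
    intro h3
    exact h0 (rename_injective _ σ.injective (h3.trans (map_zero _).symm))
  have h2 := sparse_perm (sparse_rad0 h' (irr_rename hirr σ) h1 hε) σ.symm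
  refine h2.mono ?_
  rintro B x - - ⟨k1, k2, k3⟩
  refine ⟨hco x k1 k2, ?_⟩
  rw [hab, eval_rename]
  have : ((x ∘ σ.symm) ∘ σ) = x := by
    funext i
    simp
  rw [this]
  exact k3

/-- **The radical of the value of an irreducible bihomogeneous form is large.** -/
theorem sparse_rad {F : MvPolynomial (Fin 4) ℤ} {a b : ℕ} (h : Bi F a b)
    (hirr : Irreducible (toQ F)) {ε : ℝ} (hε : 0 < ε) :
    Sparse 4 (fun B x => IsCoprime (x 0) (x 1) ∧ IsCoprime (x 2) (x 3) ∧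
      (rd (eval x F).natAbs : ℝ) < (B : ℝ) ^ (((a + b : ℕ) : ℝ) / mu (a + b) - ε)) := by
  have hF0 : F ≠ 0 := by
    rintro rfl
    exact hirr.ne_zero (map_zero _)
  have hder : ∃ i : Fin 4, pderiv i F ≠ 0 := by
    by_contra hcon
    push Not at hcon
    have h1 := h.hom.sum_X_mul_pderiv
    simp only [hcon, mul_zero, Finset.sum_const_zero] at h1
    have h2 : a + b = 0 := by
      by_contra hne
      have h3 : ((a + b : ℕ) : MvPolynomial (Fin 4) ℤ) * F = 0 := by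
        rw [← nsmul_eq_mul]
        exact h1.symm
      rcases mul_eq_zero.1 h3 with h4 | h4
      · rw [Nat.cast_eq_zero] at h4
        exact hne h4
      · exact hF0 h4
    have h3 : (toQ F).IsHomogeneous (a + b) := h.hom.map _
    have h5 := h3.totalDegree hirr.ne_zero
    rw [h2, totalDegree_eq_zero_iff_eq_C] at h5
    apply hirr.not_isUnit
    set r := coeff 0 (toQ F) with hr
    have h4 : toQ F = C r := h5
    have hr0 : r ≠ 0 := by
      intro hr0
      rw [hr0, map_zero] at h4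
      exact hirr.ne_zero h4
    rw [h4]
    exact (isUnit_iff_ne_zero.2 hr0).map C
  obtain ⟨i, hi⟩ := hder
  have hex : ∃ d, coeff d (pderiv i F) ≠ 0 := by
    by_contra hcon
    push Not at hcon
    exact hi (MvPolynomial.ext _ _ fun d => by rw [hcon d, coeff_zero])
  obtain ⟨d, hd⟩ := hex
  rw [coeff_pderiv] at hd
  obtain ⟨q1, q2⟩ := h.exps (left_ne_zero_of_mul hd)
  simp only [Finsupp.add_apply] at q1 q2
  fin_cases i
  · -- `i = 0`
    have ha : 1 ≤ a := by
      simp at q1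
      omega
    obtain ⟨a', rfl⟩ : ∃ a', a = a' + 1 := ⟨a - 1, by omega⟩
    refine sparse_rad_perm (Equiv.refl _) (a' := a') (b' := b) ?_ rfl hirr hi
      (fun x h1 _ => h1) hε
    have : rename (Equiv.refl (Fin 4)) F = F := by
      show rename id F = F
      rw [rename_id]; rfl
    rw [this]
    exact h
  · have ha : 1 ≤ a := by
      simp at q1
      omega
    obtain ⟨a', rfl⟩ : ∃ a', a = a' + 1 := ⟨a - 1, by omega⟩
    refine sparse_rad_perm (Equiv.swap 0 1) (a' := a') (b' := b) ?_ rfl hirr hi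
      (fun x h1 _ => h1.symm) hε
    refine Bi.of_exps fun d hd => ?_
    obtain ⟨u, hu, hu2⟩ := exps_rename _ hd
    obtain ⟨w1, w2⟩ := h.exps hu
    have e0 := hu2 0
    have e1 := hu2 1
    have e2 := hu2 2
    have e3 := hu2 3
    have f0 : (Equiv.swap (0 : Fin 4) 1) 0 = 1 := by decide
    have f1 : (Equiv.swap (0 : Fin 4) 1) 1 = 0 := by decide
    have f2 : (Equiv.swap (0 : Fin 4) 1) 2 = 2 := by decide
    have f3 : (Equiv.swap (0 : Fin 4) 1) 3 = 3 := by decide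
    rw [f0] at e0
    rw [f1] at e1
    rw [f2] at e2
    rw [f3] at e3
    omega
  · have hb : 1 ≤ b := by
      simp at q2
      omega
    obtain ⟨b', rfl⟩ : ∃ b', b = b' + 1 := ⟨b - 1, by omega⟩
    set σ : Equiv.Perm (Fin 4) := Equiv.swap 0 2 * Equiv.swap 1 3 with hσ
    have f0 : σ 0 = 2 := by rw [hσ]; decide
    have f1 : σ 1 = 3 := by rw [hσ]; decide
    have f2 : σ 2 = 0 := by rw [hσ]; decide
    have f3 : σ 3 = 1 := by rw [hσ]; decide
    have g0 : σ.symm 0 = 2 := by rw [Equiv.symm_apply_eq, f2]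
    have g1 : σ.symm 1 = 3 := by rw [Equiv.symm_apply_eq, f3]
    refine sparse_rad_perm σ (a' := b') (b' := a) ?_ (by omega) hirr (by rw [g0]; exact hi)
      (fun x _ h2 => by rw [g0, g1]; exact h2) hε
    refine Bi.of_exps fun d hd => ?_
    obtain ⟨u, hu, hu2⟩ := exps_rename _ hd
    obtain ⟨w1, w2⟩ := h.exps hu
    have e0 := hu2 0
    have e1 := hu2 1
    have e2 := hu2 2
    have e3 := hu2 3
    rw [f0] at e0
    rw [f1] at e1
    rw [f2] at e2
    rw [f3] at e3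
    omega
  · have hb : 1 ≤ b := by
      simp at q2
      omega
    obtain ⟨b', rfl⟩ : ∃ b', b = b' + 1 := ⟨b - 1, by omega⟩
    set σ : Equiv.Perm (Fin 4) := Equiv.swap 2 3 * Equiv.swap 0 2 * Equiv.swap 1 3 with hσ
    have f0 : σ 0 = 3 := by rw [hσ]; decide
    have f1 : σ 1 = 2 := by rw [hσ]; decide
    have f2 : σ 2 = 0 := by rw [hσ]; decide
    have f3 : σ 3 = 1 := by rw [hσ]; decide
    -- we need `σ 3 = 0`
    set τ : Equiv.Perm (Fin 4) := Equiv.swap 0 1 * σ with hτ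
    have t0 : τ 0 = 3 := by rw [hτ, Equiv.Perm.mul_apply, f0]; decide
    have t1 : τ 1 = 2 := by rw [hτ, Equiv.Perm.mul_apply, f1]; decide
    have t2 : τ 2 = 1 := by rw [hτ, Equiv.Perm.mul_apply, f2]; decide
    have t3 : τ 3 = 0 := by rw [hτ, Equiv.Perm.mul_apply, f3]; decide
    have g0 : τ.symm 0 = 3 := by rw [Equiv.symm_apply_eq, t3]
    have g1 : τ.symm 1 = 2 := by rw [Equiv.symm_apply_eq, t2]
    refine sparse_rad_perm τ (a' := b') (b' := a) ?_ (by omega) hirr (by rw [g0]; exact hi)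
      (fun x _ h2 => by rw [g0, g1]; exact h2.symm) hε
    refine Bi.of_exps fun d hd => ?_
    obtain ⟨u, hu, hu2⟩ := exps_rename _ hd
    obtain ⟨w1, w2⟩ := h.exps hu
    have e0 := hu2 0
    have e1 := hu2 1
    have e2 := hu2 2
    have e3 := hu2 3
    rw [t0] at e0
    rw [t1] at e1
    rw [t2] at e2
    rw [t3] at e3
    omega

end Pool.Agent.Helper19K9.Sq
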