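import Mathlib

/-!
Primitive points of a lattice in a box.
-/

set_option autoImplicit false
set_option linter.all false
set_option maxHeartbeats 4000000

namespace Pool.Agent.Helper19K9.Sq

lemma eq_or_neg {x v : ℤ × ℤ} (hx : IsCoprime x.1 x.2) (hv : IsCoprime v.1 v.2)
    (h : x.1 * v.2 = x.2 * v.1) : x = v ∨ x = -v := by
  have h1 : v.1 ∣ x.1 := by
    have : v.1 ∣ x.1 * v.2 := ⟨x.2, by rw [h]; ring⟩
    exact hv.dvd_of_dvd_mul_right this
  have h2 : x.1 ∣ v.1 := by
    have : x.1 ∣ v.1 * x.2 := ⟨v.2, by linarith⟩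
    exact hx.dvd_of_dvd_mul_right this
  have h3 : v.2 ∣ x.2 := by
    have : v.2 ∣ x.2 * v.1 := ⟨x.1, by linarith⟩
    exact hv.symm.dvd_of_dvd_mul_right this
  have h4 : x.2 ∣ v.2 := by
    have : x.2 ∣ v.2 * x.1 := ⟨v.1, by linarith⟩
    exact hx.symm.dvd_of_dvd_mul_right this
  have h5 := Int.associated_iff.1 (associated_of_dvd_dvd h2 h1)
  have h6 := Int.associated_iff.1 (associated_of_dvd_dvd h4 h3)
  rcases h5 with h5 | h5 <;> rcases h6 with h6 | h6
  · exact Or.inl (Prod.ext h5 h6)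
  · -- `x.1 = v.1`, `x.2 = - v.2`
    rw [h5, h6] at h
    have h7 : v.1 * v.2 = 0 := by linarith
    rcases mul_eq_zero.1 h7 with h8 | h8
    · right
      exact Prod.ext (by rw [Prod.fst_neg, h5, h8, neg_zero]) h6
    · left
      exact Prod.ext h5 (by rw [h6, h8, neg_zero])
  · rw [h5, h6] at h
    have h7 : v.1 * v.2 = 0 := by linarith
    rcases mul_eq_zero.1 h7 with h8 | h8
    · left
      exact Prod.ext (by rw [h5, h8, neg_zero]) h6
    · right
      exact Prod.ext h5 (by rw [Prod.snd_neg, h6, h8, neg_zero])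
  · exact Or.inr (Prod.ext h5 h6)

lemma exists_mul {x v : ℤ × ℤ} (hv : IsCoprime v.1 v.2) (h : x.1 * v.2 = x.2 * v.1) :
    ∃ τ : ℤ, x.1 = τ * v.1 ∧ x.2 = τ * v.2 := by
  obtain ⟨a, b, hab⟩ := hv
  refine ⟨a * x.1 + b * x.2, ?_, ?_⟩
  · linear_combination (-x.1) * hab + b * h
  · linear_combination (-x.2) * hab - a * h

theorem lattice_card (s : ℕ) (hs : 1 ≤ s) (t : ℤ) (B : ℕ) (hB : 1 ≤ B) (P : Finset (ℤ × ℤ))
    (hP : ∀ x ∈ P, |x.1| ≤ B ∧ |x.2| ≤ B ∧ IsCoprime x.1 x.2 ∧ (s : ℤ) ∣ x.1 - t * x.2) :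
    (P.card : ℝ) ≤ 2 + 20 * (B : ℝ) ^ 2 / s := by
  classical
  rcases P.eq_empty_or_nonempty with he | hne
  · rw [he, Finset.card_empty, Nat.cast_zero]; positivity
  obtain ⟨v, hv, hmin⟩ := P.exists_min_image (fun x => max |x.1| |x.2|) hne
  obtain ⟨hv1, hv2, hvc, hvs⟩ := hP v hv
  set m : ℤ := max |v.1| |v.2| with hm
  have hm1 : 1 ≤ m := by
    by_contra hcon
    have h1 : |v.1| ≤ 0 := by
      have := le_max_left |v.1| |v.2|
      omega
    have h2 : |v.2| ≤ 0 := by
      have := le_max_right |v.1| |v.2|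
      omega
    have h3 := abs_eq_zero.1 (le_antisymm h1 (abs_nonneg _))
    have h4 := abs_eq_zero.1 (le_antisymm h2 (abs_nonneg _))
    rw [h3, h4] at hvc
    obtain ⟨a, b, hab⟩ := hvc
    simp at hab
  have hmB : m ≤ B := max_le hv1 hv2
  have hs0 : (0 : ℤ) < s := by exact_mod_cast hs
  let D : ℤ × ℤ → ℤ := fun x => x.1 * v.2 - x.2 * v.1
  have hDs : ∀ x ∈ P, (s : ℤ) ∣ D x := by
    intro x hx
    obtain ⟨-, -, -, h⟩ := hP x hx
    have e : D x = (x.1 - t * x.2) * v.2 - x.2 * (v.1 - t * v.2) := by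
      show x.1 * v.2 - x.2 * v.1 = _
      ring
    rw [e]
    exact dvd_sub (h.mul_right _) (hvs.mul_left _)
  have hDB : ∀ x ∈ P, |D x| ≤ 2 * B * m := by
    intro x hx
    obtain ⟨h1, h2, -, -⟩ := hP x hx
    have e1 : |x.1 * v.2| ≤ B * m := by
      rw [abs_mul]
      exact mul_le_mul h1 (le_max_right _ _) (abs_nonneg _) (Int.natCast_nonneg _)
    have e2 : |x.2 * v.1| ≤ B * m := by
      rw [abs_mul]
      exact mul_le_mul h2 (le_max_left _ _) (abs_nonneg _) (Int.natCast_nonneg _)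
    have := abs_sub (x.1 * v.2) (x.2 * v.1)
    show |x.1 * v.2 - x.2 * v.1| ≤ _
    linarith
  set P0 := P.filter fun x => D x = 0 with hP0
  set P1 := P.filter fun x => D x ≠ 0 with hP1
  have hsplit : P.card = P0.card + P1.card := by
    rw [hP0, hP1]
    exact (Finset.card_filter_add_card_filter_not (fun x => D x = 0)).symm
  have h0 : P0.card ≤ 2 := by
    refine (Finset.card_le_card (t := {v, -v}) ?_).trans Finset.card_le_two
    intro x hx
    rw [hP0, Finset.mem_filter] at hx
    obtain ⟨-, -, h3, -⟩ := hP x hx.1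
    rw [Finset.mem_insert, Finset.mem_singleton]
    have h4 : x.1 * v.2 - x.2 * v.1 = 0 := hx.2
    exact eq_or_neg h3 hvc (by linarith)
  set q : ℤ := 2 * B * m / s with hq
  set r : ℤ := 2 * B / m with hr
  have hq0 : 0 ≤ q := Int.ediv_nonneg (by positivity) hs0.le
  have hr0 : 0 ≤ r := Int.ediv_nonneg (by positivity) (by omega)
  have h1 := Finset.card_le_mul_card_image_of_maps_to (s := P1) (f := fun x => D x / s)
    (t := (Finset.Icc (-q) q).erase 0) (by
      intro x hx
      rw [hP1, Finset.mem_filter] at hx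
      obtain ⟨w, hw⟩ := hDs x hx.1
      have hb := hDB x hx.1
      have e1 : D x / s = w := by rw [hw, Int.mul_ediv_cancel_left _ hs0.ne']
      rw [Finset.mem_erase, Finset.mem_Icc, e1, ← abs_le]
      constructor
      · rintro rfl
        rw [mul_zero] at hw
        exact hx.2 hw
      · rw [hq, Int.le_ediv_iff_mul_le hs0]
        rw [hw, abs_mul, abs_of_pos hs0] at hb
        linarith) (2 * r + 1).toNat (by
      intro j _
      rcases (P1.filter fun x => D x / s = j).eq_empty_or_nonempty with he | ⟨x₀, hx₀⟩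
      · rw [he, Finset.card_empty]; exact Nat.zero_le _
      rw [Finset.mem_filter, hP1, Finset.mem_filter] at hx₀
      have key : ∀ x ∈ P1.filter (fun x => D x / s = j), ∃ τ : ℤ, x.1 - x₀.1 = τ * v.1 ∧
          x.2 - x₀.2 = τ * v.2 := by
        intro x hx
        rw [Finset.mem_filter, hP1, Finset.mem_filter] at hx
        have e1 : D x = D x₀ := by
          obtain ⟨w, hw⟩ := hDs x hx.1.1
          obtain ⟨w', hw'⟩ := hDs x₀ hx₀.1.1
          have f1 := hx.2
          have f2 := hx₀.2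
          rw [hw, Int.mul_ediv_cancel_left _ hs0.ne'] at f1
          rw [hw', Int.mul_ediv_cancel_left _ hs0.ne'] at f2
          rw [hw, hw', f1, f2]
        have e2 : x.1 * v.2 - x.2 * v.1 = x₀.1 * v.2 - x₀.2 * v.1 := e1
        exact exists_mul (x := (x.1 - x₀.1, x.2 - x₀.2)) hvc (by
          show (x.1 - x₀.1) * v.2 = (x.2 - x₀.2) * v.1
          linarith)
      choose! τ hτ1 hτ2 using key
      have h2 : (P1.filter fun x => D x / s = j).card ≤ (Finset.Icc (-r) r).card := by
        refine Finset.card_le_card_of_injOn τ ?_ ?_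
        · intro x hx
          have e1 := hτ1 x hx
          have e2 := hτ2 x hx
          rw [Finset.mem_coe, Finset.mem_filter, hP1, Finset.mem_filter] at hx
          obtain ⟨b1, b2, -, -⟩ := hP x hx.1.1
          obtain ⟨c1, c2, -, -⟩ := hP x₀ hx₀.1.1
          rw [Finset.mem_coe, Finset.mem_Icc, ← abs_le, hr, Int.le_ediv_iff_mul_le (by omega)]
          have d1 : |τ x| * |v.1| ≤ 2 * B := by
            rw [← abs_mul, ← e1]
            have := abs_sub x.1 x₀.1
            linarith
          have d2 : |τ x| * |v.2| ≤ 2 * B := by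
            rw [← abs_mul, ← e2]
            have := abs_sub x.2 x₀.2
            linarith
          rw [hm]
          rcases max_choice |v.1| |v.2| with h | h
          · rw [h]; exact d1
          · rw [h]; exact d2
        · intro x hx x' hx' h
          have e1 := hτ1 x hx
          have e2 := hτ2 x hx
          have e3 := hτ1 x' hx'
          have e4 := hτ2 x' hx'
          rw [h] at e1 e2
          exact Prod.ext (by linarith) (by linarith)
      refine h2.trans (le_of_eq ?_)
      rw [Int.card_Icc]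
      congr 1
      ring)
  have h2 : ((Finset.Icc (-q) q).erase 0).card = (2 * q).toNat := by
    rw [Finset.card_erase_of_mem (by rw [Finset.mem_Icc]; omega), Int.card_Icc]
    omega
  rw [h2] at h1
  have h3 : (P1.card : ℝ) ≤ (2 * r + 1 : ℝ) * (2 * q) := by
    have h4 : (P1.card : ℤ) ≤ (2 * r + 1) * (2 * q) := by
      have h5 : ((2 * r + 1).toNat : ℤ) = 2 * r + 1 := Int.toNat_of_nonneg (by omega)
      have h6 : ((2 * q).toNat : ℤ) = 2 * q := Int.toNat_of_nonneg (by omega)
      rw [← h5, ← h6]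
      exact_mod_cast h1
    exact_mod_cast h4
  have hmR : (1 : ℝ) ≤ m := by exact_mod_cast hm1
  have hmR0 : (0 : ℝ) < m := by linarith
  have hsR : (0 : ℝ) < s := by exact_mod_cast hs
  have hmBR : (m : ℝ) ≤ B := by exact_mod_cast hmB
  have hqR : (q : ℝ) ≤ 2 * B * m / s := by
    rw [le_div_iff₀ hsR]
    have : q * s ≤ 2 * B * m := Int.ediv_mul_le _ hs0.ne'
    exact_mod_cast this
  have hrR : (r : ℝ) ≤ 2 * B / m := by
    rw [le_div_iff₀ hmR0]
    have : r * m ≤ 2 * B := Int.ediv_mul_le _ (by omega)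
    exact_mod_cast this
  have h1m : (1 : ℝ) ≤ B / m := by
    rw [le_div_iff₀ hmR0]
    linarith
  have h5 : (2 * r + 1 : ℝ) ≤ 5 * (B / m) := by
    have : (2 : ℝ) * B / m = 2 * (B / m) := by ring
    rw [this] at hrR
    linarith
  have hq0R : (0 : ℝ) ≤ q := by exact_mod_cast hq0
  have h6 : (P1.card : ℝ) ≤ 20 * (B : ℝ) ^ 2 / s := by
    calc (P1.card : ℝ) ≤ (2 * r + 1 : ℝ) * (2 * q) := h3
      _ ≤ (5 * (B / m)) * (2 * (2 * B * m / s)) :=
          mul_le_mul h5 (by linarith) (by positivity) (by positivity)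
      _ = _ := by field_simp; ring
  rw [hsplit]
  push_cast
  have : (P0.card : ℝ) ≤ 2 := by exact_mod_cast h0
  linarith

end Pool.Agent.Helper19K9.Sq
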