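import Pool.Agent.Helper19K9.Sq.Fib

/-!
Sparse sets: small values, values with a large divisor composed of few primes.
-/

set_option autoImplicit false
set_option linter.all false
set_option maxHeartbeats 4000000

namespace Pool.Agent.Helper19K9.Sq

open MvPolynomial Pool.Agent.TH910.Voj Pool.Agent.H813R3.Voj

lemma rpow_floor {B : ℝ} (hB : 1 ≤ B) {e : ℝ} (he : 0 ≤ e) :
    1 ≤ ⌊B ^ e⌋₊ ∧ (⌊B ^ e⌋₊ : ℝ) ≤ B ^ e ∧ B ^ e ≤ 2 * ⌊B ^ e⌋₊ :=
  floor_bounds (Real.one_le_rpow hB he)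

lemma ncard_eq {n : ℕ} (B : ℕ) (P : (Fin n → ℤ) → Prop) [DecidablePred P] :
    (Set.ncard {x | x ∈ box n B ∧ P x}) = ((box n B).filter P).card := by
  rw [← Set.ncard_coe_finset]
  congr 1
  ext x; simp

/-- The small values of a form are rare. -/
theorem sparse_small {n : ℕ} (F : MvPolynomial (Fin (n + 1)) ℤ) {k : ℕ} (hk1 : 1 ≤ k)
    (hk : F.IsHomogeneous k) (hF : Irreducible (toQ F)) {η : ℝ} (hη : 0 < η) (hηk : η ≤ k) :
    Sparse (n + 1) (fun B x => ((eval x F).natAbs : ℝ) ≤ (B : ℝ) ^ ((k : ℝ) - η)) := by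
  classical
  obtain ⟨a, i₀, hFa, ha⟩ := exists_direction F hk hF
  obtain ⟨c, hc, hfib⟩ := fiber_card a i₀ ha
  have hkR : (1 : ℝ) ≤ k := by exact_mod_cast hk1
  have hk0 : (0 : ℝ) < k := by linarith
  set A : ℕ := (a i₀).natAbs ^ k with hA
  set C₁ : ℕ := ((k + 1) * A + 1) with hC₁
  -- `T = C₁ * (⌊B ^ (1 - η / k)⌋ + 1)`
  refine ⟨η / k, by positivity, (2 * k * (2 * C₁) : ℝ) * (3 * c : ℝ) ^ n, by positivity,
    fun B hB => ?_⟩
  have hB1 : (1 : ℝ) ≤ B := by exact_mod_cast hB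
  have hBpos : (0 : ℝ) < B := by linarith
  set e : ℝ := 1 - η / k with he
  have he0 : 0 ≤ e := by
    rw [he, sub_nonneg, div_le_one hk0]
    exact hηk
  obtain ⟨q1, q2, q3⟩ := rpow_floor hB1 he0
  set u : ℕ := ⌊(B : ℝ) ^ e⌋₊ with hu
  have hlt : (B : ℝ) ^ e < u + 1 := Nat.lt_floor_add_one _
  set T : ℕ := C₁ * (u + 1) with hT
  have hT1 : 1 ≤ T := Nat.mul_pos (by omega) (by omega)
  set X := (box (n + 1) B).filter fun x => ((eval x F).natAbs : ℝ) ≤ (B : ℝ) ^ ((k : ℝ) - η) with hX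
  set M : ℕ := A * ⌊(B : ℝ) ^ ((k : ℝ) - η)⌋₊ with hM
  have hMT : (k + 1) * M < T ^ k := by
    have h1 : (M : ℝ) ≤ A * (B : ℝ) ^ ((k : ℝ) - η) := by
      rw [hM, Nat.cast_mul]
      exact mul_le_mul_of_nonneg_left (Nat.floor_le (by positivity)) (Nat.cast_nonneg _)
    have h2 : (B : ℝ) ^ ((k : ℝ) - η) = ((B : ℝ) ^ e) ^ k := by
      rw [← Real.rpow_natCast, ← Real.rpow_mul hBpos.le, he]
      congr 1
      field_simp
    have h3 : ((B : ℝ) ^ e) ^ k < ((u : ℝ) + 1) ^ k := pow_lt_pow_left₀ hlt (by positivity) (by omega)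
    have h4 : (C₁ : ℝ) ≤ (C₁ : ℝ) ^ k := le_self_pow₀ (by rw [hC₁]; push_cast; nlinarith [Nat.cast_nonneg (α := ℝ) A]) (by omega)
    have h5 : (((k + 1) * M : ℕ) : ℝ) < ((T ^ k : ℕ) : ℝ) := by
      rw [hT, mul_pow]
      push_cast
      have h6 : ((k : ℝ) + 1) * M ≤ (C₁ : ℝ) * ((B : ℝ) ^ e) ^ k := by
        rw [← h2]
        have h7 : ((k : ℝ) + 1) * M ≤ (k + 1) * (A * (B : ℝ) ^ ((k : ℝ) - η)) :=
          mul_le_mul_of_nonneg_left h1 (by positivity)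
        refine h7.trans ?_
        rw [← mul_assoc, hC₁]
        push_cast
        have : 0 ≤ (B : ℝ) ^ ((k : ℝ) - η) := by positivity
        nlinarith
      have hC0 : (0 : ℝ) < C₁ := by rw [hC₁]; positivity
      calc ((k : ℝ) + 1) * M ≤ (C₁ : ℝ) * ((B : ℝ) ^ e) ^ k := h6
        _ < (C₁ : ℝ) * ((u : ℝ) + 1) ^ k := mul_lt_mul_of_pos_left h3 hC0
        _ ≤ (C₁ : ℝ) ^ k * ((u : ℝ) + 1) ^ k := mul_le_mul_of_nonneg_right h4 (by positivity)
    exact_mod_cast h5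
  have h1 := hfib B hB X (Finset.filter_subset _ _) (2 * k * T) (by
    intro y W hW
    have hdeg := onLine_spec F hk y a
    have hdeg0 : (onLine F y a).coeff k ≠ 0 := by rw [hdeg.2]; exact hFa
    refine small_card (onLine F y a) k hdeg.1 hdeg0 M T hT1 hMT B W fun t ht => ?_
    obtain ⟨h2, x, hx, h3, h4⟩ := hW t ht
    refine ⟨h2, ?_⟩
    have h5 := line_eval F hk a i₀ x
    rw [h4, h3] at h5
    rw [h5, Int.natAbs_mul, Int.natAbs_pow, hM]
    refine Nat.mul_le_mul_left _ ?_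
    exact Nat.le_floor (Finset.mem_filter.1 hx).2)
  rw [ncard_eq]
  refine h1.trans ?_
  have h2 : ((2 * k * T : ℕ) : ℝ) ≤ (2 * k * (2 * C₁) : ℝ) * (B : ℝ) ^ e := by
    rw [hT]
    push_cast
    have h3 : ((u : ℝ) + 1) ≤ 2 * (B : ℝ) ^ e := by
      have : (1 : ℝ) ≤ (B : ℝ) ^ e := Real.one_le_rpow hB1 he0
      linarith
    have h4 : (0 : ℝ) ≤ 2 * k * C₁ := by positivity
    calc (2 : ℝ) * k * (C₁ * (u + 1)) = 2 * k * C₁ * (u + 1) := by ring
      _ ≤ 2 * k * C₁ * (2 * (B : ℝ) ^ e) := mul_le_mul_of_nonneg_left h3 h4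
      _ = _ := by ring
  calc ((2 * k * T : ℕ) : ℝ) * ((3 * c : ℝ) ^ n * (B : ℝ) ^ (n : ℝ)) ≤
        ((2 * k * (2 * C₁) : ℝ) * (B : ℝ) ^ e) * ((3 * c : ℝ) ^ n * (B : ℝ) ^ (n : ℝ)) :=
        mul_le_mul_of_nonneg_right h2 (by positivity)
    _ = (2 * k * (2 * C₁) : ℝ) * (3 * c : ℝ) ^ n * ((B : ℝ) ^ e * (B : ℝ) ^ (n : ℝ)) := by ring
    _ = _ := by
        rw [← Real.rpow_add hBpos]
        congr 2
        rw [he]
        push_cast
        ring

lemma rd_le_of_dvd {w m : ℕ} (hm : m ≠ 0) (h : ∀ p, p.Prime → p ∣ w → p ∣ m) (hw : w ≠ 0) :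
    rd w ≤ rd m := by
  unfold rd
  refine Finset.prod_le_prod_of_subset_of_one_le' ?_ fun p hp _ =>
    (Nat.prime_of_mem_primeFactors hp).one_lt.le
  intro p hp
  rw [Nat.mem_primeFactors] at hp ⊢
  exact ⟨hp.1, h p hp.1 hp.2.1, hm⟩

/-- Values with a large divisor, all primes of which divide the value of another polynomial. -/
theorem sparse_part {n : ℕ} (F G : MvPolynomial (Fin (n + 1)) ℤ) {k : ℕ}
    (hk : F.IsHomogeneous k) (hF : Irreducible (toQ F)) (hG : ¬ toQ F ∣ toQ G) {η : ℝ}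
    (hη : 0 < η) (hη1 : η ≤ 1) :
    Sparse (n + 1) (fun B x => eval x F ≠ 0 ∧ ∃ w : ℕ, (w : ℤ) ∣ eval x F ∧
      (∀ p : ℕ, p.Prime → p ∣ w → (p : ℤ) ∣ eval x G) ∧ (B : ℝ) ^ η < w) := by
  classical
  obtain ⟨a, i₀, hFa, ha⟩ := exists_direction F hk hF
  obtain ⟨c, hc, hfib⟩ := fiber_card a i₀ ha
  obtain ⟨cF, hcF1, hcF⟩ := exists_eval_bound F hk.totalDegree_le
  set E := (k + 1) * (k + 1) with hE
  have hE1 : (1 : ℝ) ≤ E := by
    have : 1 ≤ E := by rw [hE]; nlinarith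
    exact_mod_cast this
  have hE0 : (0 : ℝ) < E := by linarith
  set e : ℝ := η / (2 * E) with he
  have he0 : 0 < e := by positivity
  have he1 : e ≤ 1 := by
    rw [he, div_le_one (by positivity)]
    nlinarith
  set η₁ : ℝ := e / 4 with hη₁
  have hη₁0 : 0 < η₁ := by positivity
  set δ : ℝ := e / (4 * (k + 1)) with hδ
  have hδ0 : 0 < δ := by positivity
  obtain ⟨C₂, hC₂0, hC₂⟩ := card_small_rad hδ0
  obtain ⟨B₀, hB₀⟩ : ∃ B₀ : ℕ, ∀ B : ℕ, B₀ ≤ B →
      (((a i₀ ^ k).natAbs * (eval a F).natAbs : ℕ) : ℝ) ≤ (B : ℝ) ^ (η / 2) := by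
    have h1 : Filter.Tendsto (fun B : ℕ => (B : ℝ) ^ (η / 2)) Filter.atTop Filter.atTop :=
      (tendsto_rpow_atTop (by positivity)).comp tendsto_natCast_atTop_atTop
    exact Filter.eventually_atTop.mp (h1.eventually_ge_atTop _)
  set Q : ℕ → (Fin (n + 1) → ℤ) → Prop := fun B x => B₀ ≤ B ∧ eval x F ≠ 0 ∧
    (rd (Int.gcd (eval x F) (eval x G)) : ℝ) ≤ (B : ℝ) ^ η₁ ∧ ∃ w : ℕ, (w : ℤ) ∣ eval x F ∧
      (∀ p : ℕ, p.Prime → p ∣ w → (p : ℤ) ∣ eval x G) ∧ (B : ℝ) ^ η < w with hQ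
  have hmain : Sparse (n + 1) Q := by
    refine ⟨e / 2, by positivity, (C₂ * ((cF : ℝ)) ^ δ) * ((5 * k + 1) * (3 * c : ℝ) ^ n),
      by positivity, fun B hB => ?_⟩
    rw [ncard_eq]
    by_cases hBB : B₀ ≤ B
    swap
    · have h1 : (box (n + 1) B).filter (fun x => Q B x) = ∅ := by
        rw [Finset.filter_eq_empty_iff]
        intro x _ h
        exact hBB h.1
      rw [h1, Finset.card_empty, Nat.cast_zero]
      positivity
    have hB1 : (1 : ℝ) ≤ B := by exact_mod_cast hB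
    have hBpos : (0 : ℝ) < B := by linarith
    obtain ⟨hℓ1, hℓ2, hℓ3⟩ := rpow_floor hB1 he0.le
    set ℓ := ⌊(B : ℝ) ^ e⌋₊ with hℓ
    set N : ℕ := cF * B ^ k with hN
    have hN1 : 1 ≤ N := Nat.mul_pos hcF1 (pow_pos hB k)
    set V := (Finset.Icc (-(N : ℤ)) N).filter fun v => v ≠ 0 ∧
      (rd v.natAbs : ℝ) ≤ (B : ℝ) ^ η₁ with hV
    set X := (box (n + 1) B).filter (fun x => Q B x) with hX
    -- choose `w`
    have hw : ∀ x ∈ X, ∃ w : ℕ, ((w : ℤ) ∣ eval x F ∧ (B : ℝ) ^ η < w) ∧ (w : ℤ) ∈ V := by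
      intro x hx
      rw [hX, Finset.mem_filter] at hx
      obtain ⟨hxb, -, h0, hr, w, h1, h2, h3⟩ := hx
      have hw0 : w ≠ 0 := by
        rintro rfl
        rw [Nat.cast_zero, zero_dvd_iff] at h1
        exact h0 h1
      refine ⟨w, ⟨h1, h3⟩, ?_⟩
      rw [hV, Finset.mem_filter, Finset.mem_Icc]
      have h5 : w ≤ (eval x F).natAbs := Nat.le_of_dvd (Int.natAbs_pos.2 h0) (Int.natCast_dvd.1 h1)
      have h6 := hcF B hB x hxb
      refine ⟨⟨by omega, by exact_mod_cast h5.trans h6⟩, by exact_mod_cast hw0, ?_⟩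
      rw [Int.natAbs_natCast]
      have hg0 : Int.gcd (eval x F) (eval x G) ≠ 0 :=
        (Int.gcd_pos_of_ne_zero_left _ h0).ne'
      have h7 : rd w ≤ rd (Int.gcd (eval x F) (eval x G)) := by
        refine rd_le_of_dvd hg0 (fun p hp hpw => ?_) hw0
        have h8 : (p : ℤ) ∣ eval x F := (Int.natCast_dvd_natCast.2 hpw).trans h1
        have h9 := h2 p hp hpw
        exact_mod_cast Int.dvd_coe_gcd h8 h9
      exact (by exact_mod_cast h7 : (rd w : ℝ) ≤ rd (Int.gcd (eval x F) (eval x G))).trans hr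
    choose! w hw1 hw2 using hw
    -- the number for one `w`
    have hone : ∀ v ∈ V, ((X.filter fun x => (w x : ℤ) = v).card : ℝ) ≤
        ((k * (2 * B / ℓ + 1) : ℕ) : ℝ) * ((3 * c : ℝ) ^ n * (B : ℝ) ^ (n : ℝ)) := by
      intro v _
      by_cases hne : (X.filter fun x => (w x : ℤ) = v) = ∅
      · rw [hne, Finset.card_empty, Nat.cast_zero]; positivity
      obtain ⟨x₁, hx₁⟩ := Finset.nonempty_iff_ne_empty.2 hne
      rw [Finset.mem_filter] at hx₁
      set d := w x₁ with hd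
      have hdB : (B : ℝ) ^ η < d := (hw1 x₁ hx₁.1).2
      refine hfib B hB _ ((Finset.filter_subset _ _).trans (Finset.filter_subset _ _)) _ ?_
      intro y W hW
      have hdeg := onLine_spec F hk y a
      have hne' : (onLine F y a).coeff k ≠ 0 := by rw [hdeg.2]; exact hFa
      have hne2 : (Polynomial.C (a i₀ ^ k) * onLine F y a).coeff k ≠ 0 := by
        rw [Polynomial.coeff_C_mul]
        exact mul_ne_zero (pow_ne_zero _ ha) hne'
      have hlt : ((onLine F y a).coeff k).natAbs * ℓ ^ E < d := by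
        rw [hdeg.2]
        have h3 : (((eval a F).natAbs * ℓ ^ E : ℕ) : ℝ) ≤ (B : ℝ) ^ η := by
          push_cast
          have h4 : (ℓ : ℝ) ^ E ≤ (B : ℝ) ^ (η / 2) := by
            calc (ℓ : ℝ) ^ E ≤ ((B : ℝ) ^ e) ^ E := pow_le_pow_left₀ (by positivity) hℓ2 _
              _ = (B : ℝ) ^ (η / 2) := by
                  rw [← Real.rpow_natCast, ← Real.rpow_mul hBpos.le, he]
                  congr 1
                  field_simp
          have h5 : (B : ℝ) ^ η = (B : ℝ) ^ (η / 2) * (B : ℝ) ^ (η / 2) := by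
            rw [← Real.rpow_add hBpos]; congr 1; ring
          rw [h5]
          have h6 := hB₀ B hBB
          have h7 : ((eval a F).natAbs : ℝ) ≤ (((a i₀ ^ k).natAbs * (eval a F).natAbs : ℕ) : ℝ) := by
            have : 1 ≤ (a i₀ ^ k).natAbs := Int.natAbs_pos.2 (pow_ne_zero _ ha)
            exact_mod_cast Nat.le_mul_of_pos_left _ this
          exact mul_le_mul (h7.trans h6) h4 (by positivity) (by positivity)
        have h8 : (((aeval a F : ℤ).natAbs * ℓ ^ E : ℕ) : ℝ) < d := lt_of_le_of_lt h3 hdB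
        exact_mod_cast h8
      refine le_trans (Finset.card_le_card fun t ht => ?_)
        (card_roots_mod_le (onLine F y a) k hdeg.1 hne' d ℓ hℓ1 hlt B)
      obtain ⟨h2, x, hx, h3, h4⟩ := hW t ht
      rw [Finset.mem_filter]
      refine ⟨h2, ?_⟩
      rw [Finset.mem_filter] at hx
      have h5 := line_eval F hk a i₀ x
      rw [h4, h3] at h5
      rw [h5]
      refine Dvd.dvd.mul_left ?_ _
      have h6 : (w x : ℤ) = d := by rw [hx.2, ← hx₁.2]
      rw [← h6]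
      exact (hw1 x hx.1).1
    have hVc := hC₂ N hN1 ((B : ℝ) ^ η₁) (by positivity)
    have hXc : (X.card : ℝ) ≤ (V.card : ℝ) * (((k * (2 * B / ℓ + 1) : ℕ) : ℝ) *
        ((3 * c : ℝ) ^ n * (B : ℝ) ^ (n : ℝ))) := by
      have h1 : X.card = ∑ v ∈ V, (X.filter fun x => (w x : ℤ) = v).card :=
        Finset.card_eq_sum_card_fiberwise fun x hx => hw2 x hx
      rw [h1]
      push_cast
      refine (Finset.sum_le_sum hone).trans ?_
      rw [Finset.sum_const, nsmul_eq_mul]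
      push_cast
      exact le_rfl
    have hL : ((k * (2 * B / ℓ + 1) : ℕ) : ℝ) ≤ (5 * k + 1) * (B : ℝ) ^ (1 - e) := by
      push_cast
      have hBe : (1 : ℝ) ≤ (B : ℝ) ^ (1 - e) := Real.one_le_rpow hB1 (by linarith)
      have h3 : ((2 * B / ℓ : ℕ) : ℝ) ≤ 4 * (B : ℝ) ^ (1 - e) := by
        refine (Nat.cast_div_le).trans ?_
        push_cast
        have hℓ0 : (0 : ℝ) < ℓ := by exact_mod_cast hℓ1
        rw [div_le_iff₀ hℓ0]
        have h4 : (B : ℝ) = (B : ℝ) ^ (1 - e) * (B : ℝ) ^ e := by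
          rw [← Real.rpow_add hBpos, sub_add_cancel, Real.rpow_one]
        calc 2 * (B : ℝ) = 2 * ((B : ℝ) ^ (1 - e) * (B : ℝ) ^ e) := by rw [← h4]
          _ ≤ 2 * ((B : ℝ) ^ (1 - e) * (2 * ℓ)) := by gcongr
          _ = _ := by ring
      push_cast at h3
      have hk0 : (0 : ℝ) ≤ k := Nat.cast_nonneg k
      nlinarith
    have hV2 : (V.card : ℝ) ≤ (C₂ * (cF : ℝ) ^ δ) * (B : ℝ) ^ (e / 2) := by
      refine hVc.trans ?_
      have h1 : (N : ℝ) ^ δ ≤ (cF : ℝ) ^ δ * (B : ℝ) ^ (e / 4) := by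
        rw [hN]
        push_cast
        rw [Real.mul_rpow (by positivity) (by positivity)]
        refine mul_le_mul_of_nonneg_left ?_ (by positivity)
        rw [← Real.rpow_natCast, ← Real.rpow_mul hBpos.le]
        refine Real.rpow_le_rpow_of_exponent_le hB1 ?_
        rw [hδ, ← mul_div_assoc, div_le_div_iff₀ (by positivity) (by norm_num)]
        nlinarith [Nat.cast_nonneg (α := ℝ) k]
      calc C₂ * (B : ℝ) ^ η₁ * (N : ℝ) ^ δ ≤
            C₂ * (B : ℝ) ^ η₁ * ((cF : ℝ) ^ δ * (B : ℝ) ^ (e / 4)) :=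
            mul_le_mul_of_nonneg_left h1 (by positivity)
        _ = (C₂ * (cF : ℝ) ^ δ) * ((B : ℝ) ^ η₁ * (B : ℝ) ^ (e / 4)) := by ring
        _ = _ := by
            rw [← Real.rpow_add hBpos, hη₁]
            congr 2
            ring
    calc (X.card : ℝ) ≤ _ := hXc
      _ ≤ ((C₂ * (cF : ℝ) ^ δ) * (B : ℝ) ^ (e / 2)) * (((5 * k + 1) * (B : ℝ) ^ (1 - e)) *
          ((3 * c : ℝ) ^ n * (B : ℝ) ^ (n : ℝ))) := by
          refine mul_le_mul hV2 ?_ (by positivity) (by positivity)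
          exact mul_le_mul_of_nonneg_right hL (by positivity)
      _ = (C₂ * (cF : ℝ) ^ δ) * ((5 * k + 1) * (3 * c : ℝ) ^ n) *
          ((B : ℝ) ^ (e / 2) * (B : ℝ) ^ (1 - e) * (B : ℝ) ^ (n : ℝ)) := by ring
      _ = _ := by
          rw [← Real.rpow_add hBpos, ← Real.rpow_add hBpos]
          congr 2
          push_cast
          ring
  refine ((sparse_gcd F G hk hF hG hη₁0).or hmain).of_eventually B₀ ?_
  rintro B x hBB hB - ⟨h0, w, h1, h2, h3⟩
  by_cases h : (B : ℝ) ^ η₁ < rd (Int.gcd (eval x F) (eval x G))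
  · exact Or.inl ⟨h0, h⟩
  · exact Or.inr ⟨hBB, h0, not_lt.1 h, w, h1, h2, h3⟩

end Pool.Agent.Helper19K9.Sq
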