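import Pool.Agent.Helper19K9.Sq.Roots
import Pool.Agent.Helper19K9.Sq.Lat
import Pool.Agent.Helper19K9.Sq.Sp

/-!
Bihomogeneous forms: points at which the value is divisible by `s`.
-/

set_option autoImplicit false
set_option linter.all false
set_option maxHeartbeats 4000000

namespace Pool.Agent.Helper19K9.Sq

open MvPolynomial Pool.Agent.TH910.Voj Pool.Agent.H813R3.Voj

/-- bihomogeneous of bidegree `(a, b)` in `(X_0, X_1; X_2, X_3)` -/
def Bi (F : MvPolynomial (Fin 4) ℤ) (a b : ℕ) : Prop :=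
  F.IsWeightedHomogeneous (![1, 1, 0, 0] : Fin 4 → ℕ) a ∧
    F.IsWeightedHomogeneous (![0, 0, 1, 1] : Fin 4 → ℕ) b

lemma Bi.exps {F : MvPolynomial (Fin 4) ℤ} {a b : ℕ}
    (h : Bi F a b) {d : Fin 4 →₀ ℕ} (hd : coeff d F ≠ 0) :
    d 0 + d 1 = a ∧ d 2 + d 3 = b := by
  have h1 := h.1 hd
  have h2 := h.2 hd
  rw [Finsupp.weight_apply, Finsupp.sum_fintype _ _ (by simp)] at h1 h2
  simp [Fin.sum_univ_four] at h1 h2
  exact ⟨h1, h2⟩

lemma Bi.hom {F : MvPolynomial (Fin 4) ℤ} {a b : ℕ}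
    (h : Bi F a b) : F.IsHomogeneous (a + b) := by
  intro d hd
  obtain ⟨h1, h2⟩ := h.exps hd
  rw [Finsupp.weight_apply, Finsupp.sum_fintype _ _ (by simp)]
  simp [Fin.sum_univ_four]
  omega

lemma Bi.scale {F : MvPolynomial (Fin 4) ℤ} {a b : ℕ} (h : Bi F a b) (c u v y₀ y₁ : ℤ) :
    eval ![c * u, c * v, y₀, y₁] F = c ^ a * eval ![u, v, y₀, y₁] F := by
  rw [eval_eq', eval_eq', Finset.mul_sum]
  refine Finset.sum_congr rfl fun d hd => ?_
  obtain ⟨h1, h2⟩ := h.exps (mem_support_iff.mp hd)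
  simp only [Fin.prod_univ_four, Matrix.cons_val_zero, Matrix.cons_val_one,
    Matrix.cons_val]
  rw [← h1]
  ring

/-- the polynomial `F(X, 1, y₀, y₁)` -/
noncomputable def fy (F : MvPolynomial (Fin 4) ℤ) (y₀ y₁ : ℤ) : Polynomial ℤ :=
  aeval (![Polynomial.X, 1, Polynomial.C y₀, Polynomial.C y₁] : Fin 4 → Polynomial ℤ) F

lemma fy_eval (F : MvPolynomial (Fin 4) ℤ) (y₀ y₁ t : ℤ) :
    (fy F y₀ y₁).eval t = eval ![t, 1, y₀, y₁] F := by
  unfold fy
  have h : (Polynomial.evalRingHom t).comp ((aeval (![Polynomial.X, 1, Polynomial.C y₀,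
      Polynomial.C y₁] : Fin 4 → Polynomial ℤ) : MvPolynomial (Fin 4) ℤ →ₐ[ℤ] Polynomial ℤ) :
        MvPolynomial (Fin 4) ℤ →+* Polynomial ℤ) = eval ![t, 1, y₀, y₁] := by
    refine MvPolynomial.ringHom_ext' (RingHom.ext_int _ _) fun i => ?_
    fin_cases i <;> simp
  exact congrArg (fun g : MvPolynomial (Fin 4) ℤ →+* ℤ => g F) h

lemma fy_der (F : MvPolynomial (Fin 4) ℤ) (y₀ y₁ : ℤ) :
    (fy F y₀ y₁).derivative = fy (pderiv 0 F) y₀ y₁ := by
  unfold fy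
  induction F using MvPolynomial.induction_on with
  | C c => simp
  | add p q hp hq => simp only [map_add, hp, hq]
  | mul_X p j hp =>
    rw [map_mul, Polynomial.derivative_mul, hp, pderiv_mul, map_add, map_mul, map_mul, aeval_X]
    congr 1
    fin_cases j <;> simp [pderiv_X]

lemma Bi.fy_deg {F : MvPolynomial (Fin 4) ℤ} {a b : ℕ} (h : Bi F a b) (y₀ y₁ : ℤ) :
    (fy F y₀ y₁).natDegree ≤ a := by
  unfold fy
  rw [aeval_def, eval₂_eq']
  refine Polynomial.natDegree_sum_le_of_forall_le _ _ fun d hd => ?_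
  obtain ⟨h1, h2⟩ := h.exps (mem_support_iff.mp hd)
  simp only [Fin.prod_univ_four, Matrix.cons_val_zero, Matrix.cons_val_one,
    Matrix.cons_val]
  have e : (algebraMap ℤ (Polynomial ℤ)) (coeff d F) *
      (Polynomial.X ^ d 0 * 1 ^ d 1 * Polynomial.C y₀ ^ d 2 * Polynomial.C y₁ ^ d 3) =
      Polynomial.C (coeff d F * (y₀ ^ d 2 * y₁ ^ d 3)) * Polynomial.X ^ d 0 := by
    rw [one_pow, mul_one, Polynomial.C_mul, Polynomial.C_mul, Polynomial.C_pow, Polynomial.C_pow]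
    show Polynomial.C (coeff d F) * _ = _
    ring
  rw [e]
  refine (Polynomial.natDegree_C_mul_X_pow_le _ _).trans ?_
  omega

lemma Bi.pderiv {F : MvPolynomial (Fin 4) ℤ} {a b : ℕ} (h : Bi F (a + 1) b) :
    Bi (MvPolynomial.pderiv 0 F) a b := by
  refine ⟨h.1.pderiv (by simp), h.2.pderiv (by simp)⟩

lemma eval_congr (F : MvPolynomial (Fin 4) ℤ) (s : ℕ) {x x' : Fin 4 → ℤ}
    (h : ∀ i, (s : ℤ) ∣ x i - x' i) : (s : ℤ) ∣ eval x F - eval x' F := by
  rw [← ZMod.intCast_zmod_eq_zero_iff_dvd, Int.cast_sub, sub_eq_zero]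
  have key : ∀ z : Fin 4 → ℤ, ((eval z F : ℤ) : ZMod s) =
      eval₂ (Int.castRingHom (ZMod s)) (fun i => ((z i : ℤ) : ZMod s)) F := by
    intro z
    have h1 : (Int.castRingHom (ZMod s)).comp (eval z) =
        eval₂Hom (Int.castRingHom (ZMod s)) (fun i => ((z i : ℤ) : ZMod s)) := by
      refine MvPolynomial.ringHom_ext' (RingHom.ext_int _ _) fun i => ?_
      simp
    exact congrArg (fun g : MvPolynomial (Fin 4) ℤ →+* ZMod s => g F) h1
  rw [key, key]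
  congr 1
  funext i
  rw [← sub_eq_zero, ← Int.cast_sub, ZMod.intCast_zmod_eq_zero_iff_dvd]
  exact h i

/-- the points for fixed `y` and `s` -/
theorem count_sy {F : MvPolynomial (Fin 4) ℤ} {a b : ℕ} (h : Bi F (a + 1) b) {s : ℕ} (hs : 1 ≤ s)
    {B : ℕ} (hB : 1 ≤ B) (y₀ y₁ : ℤ) (P : Finset (ℤ × ℤ))
    (hP : ∀ x ∈ P, |x.1| ≤ B ∧ |x.2| ≤ B ∧ IsCoprime x.1 x.2 ∧
      (s : ℤ) ∣ eval ![x.1, x.2, y₀, y₁] F ∧
      IsCoprime (s : ℤ) (x.2 * eval ![x.1, x.2, y₀, y₁] (pderiv 0 F))) :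
    (P.card : ℝ) ≤ (((a + 1) ^ s.primeFactors.card : ℕ) : ℝ) * (2 + 20 * (B : ℝ) ^ 2 / s) := by
  classical
  have hs0 : (0 : ℤ) < s := by exact_mod_cast hs
  set R := (Finset.range s).filter fun t : ℕ => (s : ℤ) ∣ (fy F y₀ y₁).eval (t : ℤ) ∧
      IsCoprime (s : ℤ) ((fy F y₀ y₁).derivative.eval (t : ℤ)) with hR
  have hRc : R.card ≤ (a + 1) ^ s.primeFactors.card :=
    roots_card (fy F y₀ y₁) (a + 1) (h.fy_deg y₀ y₁) s (by omega)
  have hex : ∀ x ∈ P, ∃ t : ℕ, t ∈ R ∧ (s : ℤ) ∣ x.1 - t * x.2 := by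
    intro x hx
    obtain ⟨h1, h2, h3, h4, h5⟩ := hP x hx
    have h6 : IsCoprime (s : ℤ) x.2 := h5.of_mul_right_left
    have h7 : IsCoprime (s : ℤ) (eval ![x.1, x.2, y₀, y₁] (MvPolynomial.pderiv 0 F)) :=
      h5.of_mul_right_right
    obtain ⟨u, v, huv⟩ := h6
    obtain ⟨t, ht⟩ : ∃ t : ℕ, (t : ℤ) = (x.1 * v) % s :=
      ⟨((x.1 * v) % s).toNat, Int.toNat_of_nonneg (Int.emod_nonneg _ hs0.ne')⟩
    have hts : t < s := by
      have := Int.emod_lt_of_pos (x.1 * v) hs0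
      rw [← ht] at this
      exact_mod_cast this
    have hdv : (s : ℤ) ∣ x.1 - t * x.2 := by
      have e1 := Int.emod_add_mul_ediv (x.1 * v) s
      rw [← ht] at e1
      refine ⟨x.1 * u + (x.1 * v / s) * x.2, ?_⟩
      linear_combination (-x.1) * huv - x.2 * e1
    have hcong : ∀ H : MvPolynomial (Fin 4) ℤ, (s : ℤ) ∣ eval ![x.1, x.2, y₀, y₁] H -
        eval ![x.2 * (t : ℤ), x.2 * 1, y₀, y₁] H := by
      intro H
      refine eval_congr H s fun i => ?_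
      fin_cases i
      · show (s : ℤ) ∣ x.1 - x.2 * t
        rw [mul_comm x.2]
        exact hdv
      · show (s : ℤ) ∣ x.2 - x.2 * 1
        rw [mul_one, sub_self]
        exact dvd_zero _
      · show (s : ℤ) ∣ y₀ - y₀
        rw [sub_self]
        exact dvd_zero _
      · show (s : ℤ) ∣ y₁ - y₁
        rw [sub_self]
        exact dvd_zero _
    refine ⟨t, ?_, hdv⟩
    rw [hR, Finset.mem_filter, Finset.mem_range]
    refine ⟨hts, ?_, ?_⟩
    · rw [fy_eval]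
      have e1 : (s : ℤ) ∣ eval ![x.2 * (t : ℤ), x.2 * 1, y₀, y₁] F := by
        have := dvd_sub h4 (hcong F)
        rwa [sub_sub_cancel] at this
      rw [h.scale] at e1
      have e2 : IsCoprime (s : ℤ) (x.2 ^ (a + 1)) := IsCoprime.pow_right ⟨u, v, huv⟩
      exact e2.dvd_of_dvd_mul_left e1
    · rw [fy_der, fy_eval]
      obtain ⟨w, hw⟩ := hcong (MvPolynomial.pderiv 0 F)
      rw [h.pderiv.scale] at hw
      have e1 : eval ![x.1, x.2, y₀, y₁] (MvPolynomial.pderiv 0 F) = x.2 ^ a *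
          eval ![(t : ℤ), 1, y₀, y₁] (MvPolynomial.pderiv 0 F) + s * w := by linarith
      rw [e1] at h7
      exact (IsCoprime.of_add_mul_left_right h7).of_mul_right_right
  choose! t ht1 ht2 using hex
  have h1 : P.card = ∑ r ∈ R, (P.filter fun x => t x = r).card :=
    Finset.card_eq_sum_card_fiberwise fun x hx => ht1 x hx
  rw [h1, Nat.cast_sum]
  have hr : ∀ r ∈ R, ((P.filter fun x => t x = r).card : ℝ) ≤ 2 + 20 * (B : ℝ) ^ 2 / s := by
    intro r _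
    refine lattice_card s hs (r : ℤ) B hB _ (fun x hx => ?_)
    rw [Finset.mem_filter] at hx
    obtain ⟨k1, k2, k3, -, -⟩ := hP x hx.1
    refine ⟨k1, k2, k3, ?_⟩
    rw [← hx.2]
    exact ht2 x hx.1
  refine (Finset.sum_le_sum hr).trans ?_
  · rw [Finset.sum_const, nsmul_eq_mul]
    refine mul_le_mul_of_nonneg_right ?_ (by positivity)
    exact_mod_cast hRc

/-- the points for fixed `s` -/
theorem count_s {F : MvPolynomial (Fin 4) ℤ} {a b : ℕ} (h : Bi F (a + 1) b) {s : ℕ} (hs : 1 ≤ s)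
    {B : ℕ} (hB : 1 ≤ B) (X : Finset (Fin 4 → ℤ)) (hX : ∀ x ∈ X, x ∈ box 4 B ∧
      IsCoprime (x 0) (x 1) ∧ (s : ℤ) ∣ eval x F ∧
      IsCoprime (s : ℤ) (x 1 * eval x (pderiv 0 F))) :
    (X.card : ℝ) ≤ 9 * (B : ℝ) ^ 2 * ((((a + 1) ^ s.primeFactors.card : ℕ) : ℝ) *
      (2 + 20 * (B : ℝ) ^ 2 / s)) := by
  classical
  have hvec : ∀ x : Fin 4 → ℤ, ![x 0, x 1, x 2, x 3] = x := by
    intro x
    funext i
    fin_cases i <;> rfl
  set I := Finset.Icc (-(B : ℤ)) B with hI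
  have h1 : X.card = ∑ y ∈ I ×ˢ I, (X.filter fun x => (x 2, x 3) = y).card := by
    refine Finset.card_eq_sum_card_fiberwise fun x hx => ?_
    have hb := mem_box.1 (hX x hx).1
    show (x 2, x 3) ∈ ((I ×ˢ I : Finset (ℤ × ℤ)) : Set (ℤ × ℤ))
    rw [Finset.mem_coe, Finset.mem_product, hI, Finset.mem_Icc, Finset.mem_Icc, ← abs_le, ← abs_le]
    exact ⟨hb 2, hb 3⟩
  have h2 : ∀ y ∈ I ×ˢ I, ((X.filter fun x => (x 2, x 3) = y).card : ℝ) ≤
      (((a + 1) ^ s.primeFactors.card : ℕ) : ℝ) * (2 + 20 * (B : ℝ) ^ 2 / s) := by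
    intro y _
    have h3 : (X.filter fun x => (x 2, x 3) = y).card =
        ((X.filter fun x => (x 2, x 3) = y).image fun x => (x 0, x 1)).card := by
      rw [Finset.card_image_of_injOn]
      intro x hx x' hx' hxx
      rw [Finset.mem_coe, Finset.mem_filter] at hx hx'
      have e1 := hx.2.trans hx'.2.symm
      rw [Prod.mk.injEq] at e1
      have e2 : (x 0, x 1) = (x' 0, x' 1) := hxx
      rw [Prod.mk.injEq] at e2
      rw [← hvec x, ← hvec x', e1.1, e1.2, e2.1, e2.2]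
    rw [h3]
    refine count_sy h hs hB y.1 y.2 _ fun z hz => ?_
    rw [Finset.mem_image] at hz
    obtain ⟨x, hx, rfl⟩ := hz
    rw [Finset.mem_filter] at hx
    obtain ⟨k1, k2, k3, k4⟩ := hX x hx.1
    have hb := mem_box.1 k1
    have e : ![(x 0, x 1).1, (x 0, x 1).2, y.1, y.2] = x := by
      rw [← hx.2]
      exact hvec x
    rw [e]
    exact ⟨hb 0, hb 1, k2, k3, k4⟩
  rw [h1, Nat.cast_sum]
  refine (Finset.sum_le_sum h2).trans ?_
  rw [Finset.sum_const, nsmul_eq_mul, Finset.card_product, hI, card_Icc_int]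
  refine mul_le_mul_of_nonneg_right ?_ (by positivity)
  have : (1 : ℝ) ≤ B := by exact_mod_cast hB
  push_cast
  nlinarith

end Pool.Agent.Helper19K9.Sq
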