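import Pool.Agent.TH910.Voj.Gcd

/-!
Values of a form on the points of a box: fibres over a hyperplane, small values, values with a large
divisor composed of few primes.
-/

set_option autoImplicit false
set_option linter.all false
set_option maxHeartbeats 4000000

namespace Pool.Agent.Helper19K9.Sq

open MvPolynomial Pool.Agent.TH910.Voj Pool.Agent.H813R3.Voj

/-- the projection along the direction `a` -/
def prj {n : ℕ} (a : Fin (n + 1) → ℤ) (i₀ : Fin (n + 1)) (x : Fin (n + 1) → ℤ) :
    Fin (n + 1) → ℤ := fun i => a i₀ * x i - a i * x i₀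

lemma prj_mem {n : ℕ} (a : Fin (n + 1) → ℤ) (i₀ : Fin (n + 1)) :
    ∃ c : ℕ, 1 ≤ c ∧ ∀ B : ℕ, ∀ x ∈ box (n + 1) B, prj a i₀ x ∈ ybox n i₀ (c * B) := by
  refine ⟨∑ i, (a i).natAbs + (a i₀).natAbs + 1, by omega, fun B x hx => ?_⟩
  rw [mem_box] at hx
  unfold ybox prj
  rw [Fintype.mem_piFinset]
  intro i
  split_ifs with hi
  · rw [hi]; simp
  · rw [Finset.mem_Icc, ← abs_le]
    have h1 : |a i₀ * x i - a i * x i₀| ≤ |a i₀| * B + |a i| * B := by
      refine (abs_sub _ _).trans ?_
      rw [abs_mul, abs_mul]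
      exact add_le_add (mul_le_mul_of_nonneg_left (hx i) (abs_nonneg _))
        (mul_le_mul_of_nonneg_left (hx i₀) (abs_nonneg _))
    refine h1.trans ?_
    have h2 : (a i).natAbs ≤ ∑ i, (a i).natAbs :=
      Finset.single_le_sum (f := fun i => (a i).natAbs) (fun _ _ => Nat.zero_le _)
        (Finset.mem_univ i)
    have h3 : |a i₀| + |a i| ≤ ((∑ i, (a i).natAbs + (a i₀).natAbs + 1 : ℕ) : ℤ) := by
      rw [Int.abs_eq_natAbs, Int.abs_eq_natAbs]
      push_cast
      have : ((a i).natAbs : ℤ) ≤ ∑ i, ((a i).natAbs : ℤ) := by exact_mod_cast h2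
      push_cast at this
      linarith
    rw [Nat.cast_mul]
    nlinarith [Int.natCast_nonneg B]

/-- Counting by fibres. -/
lemma fiber_card {n : ℕ} (a : Fin (n + 1) → ℤ) (i₀ : Fin (n + 1)) (ha : a i₀ ≠ 0) :
    ∃ c : ℕ, 1 ≤ c ∧ ∀ B : ℕ, 1 ≤ B → ∀ X : Finset (Fin (n + 1) → ℤ), X ⊆ box (n + 1) B →
      ∀ L : ℕ, (∀ (y : Fin (n + 1) → ℤ) (W : Finset ℤ), (∀ t ∈ W, t ∈ Finset.Icc (-(B : ℤ)) B ∧
        ∃ x ∈ X, x i₀ = t ∧ prj a i₀ x = y) → W.card ≤ L) →
      (X.card : ℝ) ≤ L * ((3 * c : ℝ) ^ n * (B : ℝ) ^ (n : ℝ)) := by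
  classical
  obtain ⟨c, hc, hprj⟩ := prj_mem a i₀
  refine ⟨c, hc, fun B hB X hX L hL => ?_⟩
  have h1 := Finset.card_le_mul_card_image_of_maps_to (s := X) (f := prj a i₀)
    (t := ybox n i₀ (c * B)) (fun x hx => hprj B x (hX hx)) L (by
      intro y _
      have h2 : ((X.filter fun x => prj a i₀ x = y).image fun x => x i₀).card ≤ L := by
        refine hL y _ ?_
        intro t ht
        rw [Finset.mem_image] at ht
        obtain ⟨x, hx, rfl⟩ := ht
        rw [Finset.mem_filter] at hx
        exact ⟨by rw [Finset.mem_Icc, ← abs_le]; exact mem_box.1 (hX hx.1) i₀,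
          x, hx.1, rfl, hx.2⟩
      rwa [Finset.card_image_of_injOn] at h2
      intro x hx x' hx' hxx'
      rw [Finset.mem_coe, Finset.mem_filter] at hx hx'
      funext i
      have h3 := congrFun (hx.2.trans hx'.2.symm) i
      simp only [prj] at h3 hxx'
      rw [hxx'] at h3
      have h4 : a i₀ * x i = a i₀ * x' i := by linarith
      exact mul_left_cancel₀ ha h4)
  rw [card_ybox] at h1
  have h2 : (X.card : ℝ) ≤ L * (2 * (c * B) + 1 : ℝ) ^ n := by exact_mod_cast h1
  refine h2.trans (mul_le_mul_of_nonneg_left ?_ (Nat.cast_nonneg _))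
  rw [Real.rpow_natCast, ← mul_pow]
  refine pow_le_pow_left₀ (by positivity) ?_ _
  have h3 : (1 : ℝ) ≤ c := by exact_mod_cast hc
  have h4 : (1 : ℝ) ≤ B := by exact_mod_cast hB
  nlinarith

lemma line_eval {n : ℕ} (F : MvPolynomial (Fin (n + 1)) ℤ) {k : ℕ} (hk : F.IsHomogeneous k)
    (a : Fin (n + 1) → ℤ) (i₀ : Fin (n + 1)) (x : Fin (n + 1) → ℤ) :
    (onLine F (prj a i₀ x) a).eval (x i₀) = a i₀ ^ k * eval x F := by
  rw [eval_onLine]
  have h1 : (fun i => prj a i₀ x i + x i₀ * a i) = fun i => a i₀ * x i := by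
    funext i
    unfold prj
    ring
  rw [h1, aeval_scale F hk]
  rfl

/-- A polynomial has few small values. -/
lemma small_card (f : Polynomial ℤ) (k : ℕ) (hf : f.natDegree ≤ k) (hc : f.coeff k ≠ 0)
    (M T : ℕ) (hT : 1 ≤ T) (hMT : (k + 1) * M < T ^ k) (B : ℕ) :
    ∀ W : Finset ℤ, (∀ t ∈ W, t ∈ Finset.Icc (-(B : ℤ)) B ∧ (f.eval t).natAbs ≤ M) →
      W.card ≤ 2 * k * T := by
  classical
  intro W hW
  have hT0 : (0 : ℤ) < T := by exact_mod_cast hT
  -- separated points
  have key : ∀ V : Finset ℤ, V ⊆ W → (∀ s ∈ V, ∀ t ∈ V, s ≠ t → (T : ℤ) ≤ |s - t|) →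
      V.card ≤ k := by
    intro V hVW hsep
    by_contra hcon
    obtain ⟨U, hUV, hU⟩ := Finset.exists_subset_card_eq (show k + 1 ≤ V.card by omega)
    have hdeg : ((f.map (Int.castRingHom ℝ)).degree : WithBot ℕ) = k := by
      rw [Polynomial.degree_map_eq_of_injective (Int.castRingHom ℝ).injective_int,
        Polynomial.degree_eq_of_le_of_coeff_ne_zero
          (Polynomial.natDegree_le_iff_degree_le.1 hf) hc]
    have h1 := Lagrange.leadingCoeff_eq_sum (s := U) (v := fun t : ℤ => (t : ℝ))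
      (Int.cast_injective.injOn) (P := f.map (Int.castRingHom ℝ)) (by rw [hU, hdeg]; push_cast; rfl)
    have h2 : (f.map (Int.castRingHom ℝ)).leadingCoeff = (f.coeff k : ℝ) := by
      rw [Polynomial.leadingCoeff, Polynomial.natDegree_eq_of_degree_eq_some hdeg,
        Polynomial.coeff_map]
      rfl
    have h3 : ∀ i ∈ U, |(f.map (Int.castRingHom ℝ)).eval ((i : ℤ) : ℝ) /
        ∏ j ∈ U.erase i, ((i : ℝ) - j)| ≤ M / (T : ℝ) ^ k := by
      intro i hi
      rw [abs_div]
      have h4 : |(f.map (Int.castRingHom ℝ)).eval ((i : ℤ) : ℝ)| ≤ M := by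
        have h5 : (f.map (Int.castRingHom ℝ)).eval ((i : ℤ) : ℝ) = ((f.eval i : ℤ) : ℝ) := by
          rw [Polynomial.eval_intCast_map]
          rfl
        rw [h5, ← Int.cast_abs, Int.abs_eq_natAbs]
        exact_mod_cast (hW i (hVW (hUV hi))).2
      have h6 : (T : ℝ) ^ k ≤ |∏ j ∈ U.erase i, ((i : ℝ) - j)| := by
        rw [Finset.abs_prod]
        have h7 : (U.erase i).card = k := by rw [Finset.card_erase_of_mem hi, hU]; rfl
        rw [← h7, ← Finset.prod_const]
        refine Finset.prod_le_prod (fun _ _ => by positivity) fun j hj => ?_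
        obtain ⟨hji, hjU⟩ := Finset.mem_erase.1 hj
        have h8 := hsep i (hUV hi) j (hUV hjU) hji.symm
        rw [← Int.cast_sub, ← Int.cast_abs]
        exact_mod_cast h8
      have h9 : (0 : ℝ) < (T : ℝ) ^ k := by positivity
      exact div_le_div₀ (Nat.cast_nonneg _) h4 h9 h6
    have h4 : |(f.coeff k : ℝ)| ≤ (k + 1) * (M / (T : ℝ) ^ k) := by
      rw [← h2, h1]
      refine (Finset.abs_sum_le_sum_abs _ _).trans ((Finset.sum_le_sum h3).trans ?_)
      rw [Finset.sum_const, hU, nsmul_eq_mul]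
      push_cast
      exact le_rfl
    have h5 : (1 : ℝ) ≤ |(f.coeff k : ℝ)| := by
      rw [← Int.cast_abs]
      exact_mod_cast Int.one_le_abs hc
    have h6 : ((k + 1 : ℝ)) * M < (T : ℝ) ^ k := by exact_mod_cast hMT
    have h9 : (0 : ℝ) < (T : ℝ) ^ k := by positivity
    have h7 : (k + 1 : ℝ) * (M / (T : ℝ) ^ k) < 1 := by
      rw [← mul_div_assoc, div_lt_one h9]
      exact h6
    linarith
  -- the blocks
  set J := W.image (fun t => (t + B) / (T : ℤ)) with hJ
  have hJ1 : ∀ r : ℤ, (J.filter fun j => j % 2 = r).card ≤ k := by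
    intro r
    -- choose representatives
    have hex : ∀ j ∈ J.filter (fun j => j % 2 = r), ∃ t ∈ W, (t + B) / (T : ℤ) = j := by
      intro j hj
      rw [Finset.mem_filter, hJ, Finset.mem_image] at hj
      exact hj.1
    choose! g hgW hg using hex
    have hinj : Set.InjOn g (J.filter fun j => j % 2 = r) := by
      intro j hj j' hj' h
      rw [← hg j hj, ← hg j' hj', h]
    rw [← Finset.card_image_of_injOn hinj]
    refine key _ (fun t ht => ?_) ?_
    · rw [Finset.mem_image] at ht
      obtain ⟨j, hj, rfl⟩ := ht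
      exact hgW j hj
    · intro s hs t ht hst
      rw [Finset.mem_image] at hs ht
      obtain ⟨j, hj, rfl⟩ := hs
      obtain ⟨j', hj', rfl⟩ := ht
      have hjj : j ≠ j' := fun h => hst (by rw [h])
      have e1 := hg j hj
      have e2 := hg j' hj'
      have p1 := (Finset.mem_filter.1 hj).2
      have p2 := (Finset.mem_filter.1 hj').2
      have f1 := Int.emod_add_mul_ediv (g j + B) T
      have f2 := Int.emod_add_mul_ediv (g j' + B) T
      have g1 := Int.emod_nonneg (g j + B) hT0.ne'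
      have g2 := Int.emod_nonneg (g j' + B) hT0.ne'
      have g3 := Int.emod_lt_of_pos (g j + B) hT0
      have g4 := Int.emod_lt_of_pos (g j' + B) hT0
      rw [e1] at f1
      rw [e2] at f2
      have h2 : 2 ≤ j - j' ∨ 2 ≤ j' - j := by omega
      rcases h2 with h2 | h2
      · have h3 : (T : ℤ) * 2 ≤ T * (j - j') := mul_le_mul_of_nonneg_left h2 hT0.le
        have h4 : (T : ℤ) * (j - j') = T * j - T * j' := by ring
        refine le_trans ?_ (le_abs_self _)
        linarith
      · have h3 : (T : ℤ) * 2 ≤ T * (j' - j) := mul_le_mul_of_nonneg_left h2 hT0.le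
        have h4 : (T : ℤ) * (j' - j) = T * j' - T * j := by ring
        refine le_trans ?_ (neg_le_abs _)
        linarith
  have hJc : J.card ≤ 2 * k := by
    have h1 : J ⊆ (J.filter fun j => j % 2 = 0) ∪ (J.filter fun j => j % 2 = 1) := by
      intro j hj
      rw [Finset.mem_union, Finset.mem_filter, Finset.mem_filter]
      rcases Int.emod_two_eq_zero_or_one j with h | h
      · exact Or.inl ⟨hj, h⟩
      · exact Or.inr ⟨hj, h⟩
    have h2 := (Finset.card_le_card h1).trans (Finset.card_union_le _ _)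
    have h3 := hJ1 0
    have h4 := hJ1 1
    omega
  have h1 := Finset.card_le_mul_card_image_of_maps_to (s := W)
    (f := fun t => (t + B) / (T : ℤ)) (t := J) (fun t ht => Finset.mem_image_of_mem _ ht) T (by
      intro j _
      have h2 : (W.filter fun t => (t + B) / (T : ℤ) = j) ⊆
          (Finset.Ico (j * T - B) (j * T - B + T)) := by
        intro t ht
        rw [Finset.mem_filter] at ht
        have f1 := Int.emod_add_mul_ediv (t + B) T
        have g1 := Int.emod_nonneg (t + B) hT0.ne'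
        have g3 := Int.emod_lt_of_pos (t + B) hT0
        rw [ht.2] at f1
        rw [Finset.mem_Ico]
        constructor
        · linarith
        · linarith
      refine (Finset.card_le_card h2).trans ?_
      rw [Int.card_Ico]
      omega)
  calc W.card ≤ T * J.card := h1
    _ ≤ T * (2 * k) := Nat.mul_le_mul_left _ hJc
    _ = 2 * k * T := by ring

end Pool.Agent.Helper19K9.Sq
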