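import Pool.Agent.Helper19K9.Sq.Bi

/-!
Powerful numbers: a sum, and points at which the value has a powerful divisor of medium size.
-/

set_option autoImplicit false
set_option linter.all false
set_option maxHeartbeats 4000000

namespace Pool.Agent.Helper19K9.Sq

open MvPolynomial Pool.Agent.TH910.Voj Pool.Agent.H813R3.Voj

/-- `s` is powerful -/
def Pw (s : ℕ) : Prop := s ≠ 0 ∧ ∀ p : ℕ, p.Prime → p ∣ s → p ^ 2 ∣ s

lemma rd_sq_le {s : ℕ} (h : Pw s) : rd s ^ 2 ≤ s := by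
  have h1 : s = ∏ p ∈ s.primeFactors, p ^ s.factorization p := by
    conv_lhs => rw [← Nat.prod_factorization_pow_eq_self h.1]
    rfl
  unfold rd
  conv_rhs => rw [h1]
  rw [← Finset.prod_pow]
  refine Finset.prod_le_prod' fun p hp => ?_
  have hp' := Nat.mem_primeFactors.1 hp
  refine Nat.pow_le_pow_right hp'.1.pos ?_
  exact (hp'.1.pow_dvd_iff_le_factorization h.1).1 (h.2 p hp'.1 hp'.2.1)

/-- the sum of `2 + 20 b / s` over the powerful numbers `s ≥ S₀` up to `N` -/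
theorem sum_pw {δ : ℝ} (hδ : 0 < δ) : ∃ C : ℝ, 0 < C ∧ ∀ N : ℕ, 1 ≤ N → ∀ S₀ : ℝ, 0 < S₀ →
    ∀ b : ℝ, 0 ≤ b → ∀ T : Finset ℕ, (∀ s ∈ T, Pw s ∧ S₀ ≤ s ∧ s ≤ N) →
      ∑ s ∈ T, (2 + 20 * b / s) ≤ C * (N : ℝ) ^ δ * ((N : ℝ) ^ (1 / 2 : ℝ) + b * S₀ ^ (-(1 / 2) : ℝ)) := by
  obtain ⟨C, hC, h⟩ := sum_inv_rho ∅ hδ
  refine ⟨20 * C, by positivity, fun N hN S₀ hS₀ b hb T hT => ?_⟩
  have hNR : (1 : ℝ) ≤ N := by exact_mod_cast hN
  have key : ∀ s ∈ T, (2 + 20 * b / s : ℝ) ≤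
      20 * ((N : ℝ) ^ (1 / 2 : ℝ) + b * S₀ ^ (-(1 / 2) : ℝ)) * (1 / rho ∅ (s : ℤ)) := by
    intro s hs
    obtain ⟨h1, h2, h3⟩ := hT s hs
    have hs0 : (0 : ℝ) < s := by exact_mod_cast Nat.pos_of_ne_zero h1.1
    have hrd : (0 : ℝ) < rd s := by exact_mod_cast rd_pos s
    rw [rho_empty, Int.natAbs_natCast]
    have h4 : (rd s : ℝ) ≤ (s : ℝ) ^ (1 / 2 : ℝ) := by
      rw [← Real.sqrt_eq_rpow]
      refine Real.le_sqrt_of_sq_le ?_
      exact_mod_cast rd_sq_le h1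
    have h5 : (s : ℝ) ^ (1 / 2 : ℝ) ≤ (N : ℝ) ^ (1 / 2 : ℝ) :=
      Real.rpow_le_rpow hs0.le (by exact_mod_cast h3) (by norm_num)
    have h6 : (s : ℝ) ^ (-(1 / 2) : ℝ) ≤ S₀ ^ (-(1 / 2) : ℝ) :=
      Real.rpow_le_rpow_of_nonpos hS₀ h2 (by norm_num)
    have h7 : (1 : ℝ) / s = (s : ℝ) ^ (-(1 / 2) : ℝ) * (s : ℝ) ^ (-(1 / 2) : ℝ) := by
      rw [← Real.rpow_add hs0]
      norm_num
      rw [Real.rpow_neg_one]
    have h8 : (s : ℝ) ^ (-(1 / 2) : ℝ) ≤ 1 / rd s := by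
      rw [Real.rpow_neg hs0.le, ← one_div]
      exact one_div_le_one_div_of_le hrd h4
    have e1 : (2 : ℝ) ≤ 20 * (N : ℝ) ^ (1 / 2 : ℝ) * (1 / rd s) := by
      rw [mul_one_div, le_div_iff₀ hrd]
      nlinarith
    have e2 : 20 * b / s ≤ 20 * (b * S₀ ^ (-(1 / 2) : ℝ)) * (1 / rd s) := by
      have : 20 * b / s = 20 * b * (1 / s) := by ring
      rw [this, h7]
      calc 20 * b * ((s : ℝ) ^ (-(1 / 2) : ℝ) * (s : ℝ) ^ (-(1 / 2) : ℝ)) ≤
            20 * b * (S₀ ^ (-(1 / 2) : ℝ) * (1 / rd s)) :=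
            mul_le_mul_of_nonneg_left (mul_le_mul h6 h8 (by positivity) (by positivity))
              (by positivity)
        _ = _ := by ring
    calc (2 + 20 * b / s : ℝ) ≤ 20 * (N : ℝ) ^ (1 / 2 : ℝ) * (1 / rd s) +
          20 * (b * S₀ ^ (-(1 / 2) : ℝ)) * (1 / rd s) := add_le_add e1 e2
      _ = _ := by ring
  refine (Finset.sum_le_sum key).trans ?_
  rw [← Finset.mul_sum]
  have h1 : ∑ s ∈ T, (1 : ℝ) / rho ∅ (s : ℤ) ≤ C * (N : ℝ) ^ δ := by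
    refine le_trans ?_ (h N hN)
    refine Finset.sum_le_sum_of_subset_of_nonneg ?_ fun _ _ _ => by positivity
    intro s hs
    obtain ⟨h1, h2, h3⟩ := hT s hs
    rw [Finset.mem_Icc]
    exact ⟨Nat.pos_of_ne_zero h1.1, h3⟩
  calc 20 * ((N : ℝ) ^ (1 / 2 : ℝ) + b * S₀ ^ (-(1 / 2) : ℝ)) * ∑ s ∈ T, (1 : ℝ) / rho ∅ (s : ℤ) ≤
        20 * ((N : ℝ) ^ (1 / 2 : ℝ) + b * S₀ ^ (-(1 / 2) : ℝ)) * (C * (N : ℝ) ^ δ) :=
        mul_le_mul_of_nonneg_left h1 (by positivity)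
    _ = _ := by ring

/-- Values with a powerful divisor of medium size. -/
theorem sparse_pw {F : MvPolynomial (Fin 4) ℤ} {a b : ℕ} (h : Bi F (a + 1) b) {c₁ : ℝ}
    (hc : 0 < c₁) (hc4 : c₁ ≤ 4) :
    Sparse 4 (fun B x => IsCoprime (x 0) (x 1) ∧ ∃ s : ℕ, Pw s ∧ (B : ℝ) ^ c₁ ≤ s ∧
      (s : ℝ) ≤ (B : ℝ) ^ (4 - c₁) ∧ (s : ℤ) ∣ eval x F ∧
      IsCoprime (s : ℤ) (x 1 * eval x (pderiv 0 F))) := by
  classical
  set δ : ℝ := c₁ / 32 with hδ
  have hδ0 : 0 < δ := by positivity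
  obtain ⟨C₁, hC₁, hω⟩ := pow_omega (a + 1) hδ0
  obtain ⟨C₂, hC₂, hsum⟩ := sum_pw hδ0
  refine ⟨c₁ / 4, by positivity, 9 * C₁ * C₂ * 2, by positivity, fun B hB => ?_⟩
  have hB1 : (1 : ℝ) ≤ B := by exact_mod_cast hB
  have hB0 : (0 : ℝ) < B := by linarith
  set N : ℕ := ⌊(B : ℝ) ^ (4 - c₁)⌋₊ with hN
  obtain ⟨hN1, hN2, -⟩ := rpow_floor hB1 (show 0 ≤ 4 - c₁ by linarith)
  set T := (Finset.Icc 1 N).filter fun s => Pw s ∧ (B : ℝ) ^ c₁ ≤ s with hT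
  let X : ℕ → Finset (Fin 4 → ℤ) := fun s => (box 4 B).filter fun x =>
    IsCoprime (x 0) (x 1) ∧ (s : ℤ) ∣ eval x F ∧ IsCoprime (s : ℤ) (x 1 * eval x (pderiv 0 F))
  have hsub : {x | x ∈ box 4 B ∧ (IsCoprime (x 0) (x 1) ∧ ∃ s : ℕ, Pw s ∧ (B : ℝ) ^ c₁ ≤ s ∧
      (s : ℝ) ≤ (B : ℝ) ^ (4 - c₁) ∧ (s : ℤ) ∣ eval x F ∧
      IsCoprime (s : ℤ) (x 1 * eval x (pderiv 0 F)))} ⊆ ((T.biUnion X : Finset (Fin 4 → ℤ)) :
        Set (Fin 4 → ℤ)) := by
    rintro x ⟨hx, hco, s, hs, hs1, hs2, hs3, hs4⟩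
    rw [Finset.mem_coe, Finset.mem_biUnion]
    refine ⟨s, ?_, ?_⟩
    · rw [hT, Finset.mem_filter, Finset.mem_Icc]
      exact ⟨⟨Nat.pos_of_ne_zero hs.1, Nat.le_floor hs2⟩, hs, hs1⟩
    · rw [Finset.mem_filter]
      exact ⟨hx, hco, hs3, hs4⟩
  have h1 : (Set.ncard {x | x ∈ box 4 B ∧ (IsCoprime (x 0) (x 1) ∧ ∃ s : ℕ, Pw s ∧
      (B : ℝ) ^ c₁ ≤ s ∧ (s : ℝ) ≤ (B : ℝ) ^ (4 - c₁) ∧ (s : ℤ) ∣ eval x F ∧
      IsCoprime (s : ℤ) (x 1 * eval x (pderiv 0 F)))} : ℝ) ≤ ∑ s ∈ T, ((X s).card : ℝ) := by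
    have h2 := Set.ncard_le_ncard hsub (Finset.finite_toSet _)
    rw [Set.ncard_coe_finset] at h2
    have h3 := h2.trans Finset.card_biUnion_le
    exact_mod_cast h3
  refine h1.trans ?_
  have h2 : ∀ s ∈ T, ((X s).card : ℝ) ≤ 9 * (B : ℝ) ^ 2 * (C₁ * (B : ℝ) ^ (c₁ / 8)) *
      (2 + 20 * (B : ℝ) ^ 2 / s) := by
    intro s hs
    rw [hT, Finset.mem_filter, Finset.mem_Icc] at hs
    have h3 := count_s h hs.1.1 hB (X s) (fun x hx => Finset.mem_filter.1 hx)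
    refine h3.trans ?_
    rw [← mul_assoc]
    refine mul_le_mul_of_nonneg_right ?_ (by positivity)
    refine mul_le_mul_of_nonneg_left ?_ (by positivity)
    refine (hω s hs.1.1).trans (mul_le_mul_of_nonneg_left ?_ hC₁.le)
    have h4 : (s : ℝ) ≤ (B : ℝ) ^ (4 : ℝ) := by
      have h5 : (s : ℝ) ≤ N := by exact_mod_cast hs.1.2
      refine h5.trans (hN2.trans (Real.rpow_le_rpow_of_exponent_le hB1 (by linarith)))
    calc (s : ℝ) ^ δ ≤ ((B : ℝ) ^ (4 : ℝ)) ^ δ :=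
          Real.rpow_le_rpow (Nat.cast_nonneg _) h4 hδ0.le
      _ = (B : ℝ) ^ (c₁ / 8) := by
          rw [← Real.rpow_mul hB0.le]
          congr 1
          rw [hδ]; ring
  refine (Finset.sum_le_sum h2).trans ?_
  rw [← Finset.mul_sum]
  have h3 := hsum N hN1 ((B : ℝ) ^ c₁) (by positivity) ((B : ℝ) ^ 2) (by positivity) T (by
    intro s hs
    rw [hT, Finset.mem_filter, Finset.mem_Icc] at hs
    exact ⟨hs.2.1, hs.2.2, hs.1.2⟩)
  have h4 : (N : ℝ) ^ δ ≤ (B : ℝ) ^ (c₁ / 8) := by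
    calc (N : ℝ) ^ δ ≤ ((B : ℝ) ^ (4 : ℝ)) ^ δ :=
          Real.rpow_le_rpow (Nat.cast_nonneg _)
            (hN2.trans (Real.rpow_le_rpow_of_exponent_le hB1 (by linarith))) hδ0.le
      _ = (B : ℝ) ^ (c₁ / 8) := by
          rw [← Real.rpow_mul hB0.le]
          congr 1
          rw [hδ]; ring
  have h5 : (N : ℝ) ^ (1 / 2 : ℝ) ≤ (B : ℝ) ^ (2 - c₁ / 2) := by
    calc (N : ℝ) ^ (1 / 2 : ℝ) ≤ ((B : ℝ) ^ (4 - c₁)) ^ (1 / 2 : ℝ) :=
          Real.rpow_le_rpow (Nat.cast_nonneg _) hN2 (by norm_num)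
      _ = _ := by
          rw [← Real.rpow_mul hB0.le]
          congr 1
          ring
  have h6 : (B : ℝ) ^ 2 * ((B : ℝ) ^ c₁) ^ (-(1 / 2) : ℝ) = (B : ℝ) ^ (2 - c₁ / 2) := by
    rw [← Real.rpow_mul hB0.le, ← Real.rpow_natCast, ← Real.rpow_add hB0]
    congr 1
    push_cast
    ring
  rw [h6] at h3
  have h7 : ∑ s ∈ T, (2 + 20 * (B : ℝ) ^ 2 / s) ≤
      C₂ * (B : ℝ) ^ (c₁ / 8) * (2 * (B : ℝ) ^ (2 - c₁ / 2)) := by
    refine h3.trans ?_
    refine mul_le_mul (mul_le_mul_of_nonneg_left h4 hC₂.le) (by linarith) (by positivity)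
      (by positivity)
  calc 9 * (B : ℝ) ^ 2 * (C₁ * (B : ℝ) ^ (c₁ / 8)) * ∑ s ∈ T, (2 + 20 * (B : ℝ) ^ 2 / s) ≤
        9 * (B : ℝ) ^ 2 * (C₁ * (B : ℝ) ^ (c₁ / 8)) *
          (C₂ * (B : ℝ) ^ (c₁ / 8) * (2 * (B : ℝ) ^ (2 - c₁ / 2))) :=
        mul_le_mul_of_nonneg_left h7 (by positivity)
    _ = 9 * C₁ * C₂ * 2 * ((B : ℝ) ^ (2 : ℝ) * (B : ℝ) ^ (c₁ / 8) * (B : ℝ) ^ (c₁ / 8) *
          (B : ℝ) ^ (2 - c₁ / 2)) := by
        rw [show (B : ℝ) ^ (2 : ℝ) = (B : ℝ) ^ 2 by rw [← Real.rpow_natCast]; norm_num]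
        ring
    _ = _ := by
        rw [← Real.rpow_add hB0, ← Real.rpow_add hB0, ← Real.rpow_add hB0]
        congr 2
        push_cast
        ring

/-- **Numbers without powerful divisors of medium size.** -/
theorem rad_of_no_pw {n m : ℕ} (hn : n ≠ 0) (hm : 1 ≤ m) {L U : ℝ} (hL : 1 ≤ L) (hLU : L ^ 2 ≤ U)
    (hno : ∀ s : ℕ, Pw s → s ∣ n → (s : ℝ) < L ∨ U < s) (hnU : (n : ℝ) ^ 2 < U ^ (m + 1)) :
    (n : ℝ) ≤ L * (rd n : ℝ) ^ m := by
  classical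
  set v := n.factorization with hv
  have hfac : ∀ T : Finset ℕ, T ⊆ n.primeFactors → (∏ p ∈ T, p ^ v p) ∣ n := by
    intro T hT
    conv_rhs => rw [← Nat.prod_factorization_pow_eq_self hn]
    exact Finset.prod_dvd_prod_of_subset _ _ _ hT
  have hnprod : (∏ p ∈ n.primeFactors, p ^ v p) = n := Nat.prod_factorization_pow_eq_self hn
  set T := n.primeFactors.filter fun p => p ^ 2 ∣ n ∧ ((p ^ 2 : ℕ) : ℝ) < L with hT
  have hTsub : T ⊆ n.primeFactors := Finset.filter_subset _ _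
  have hprime : ∀ p ∈ T, p.Prime := fun p hp => Nat.prime_of_mem_primeFactors (hTsub hp)
  have hv2 : ∀ p ∈ T, 2 ≤ v p := by
    intro p hp
    have h1 := (Finset.mem_filter.1 hp).2.1
    exact ((hprime p hp).pow_dvd_iff_le_factorization hn).1 h1
  -- the small part is smaller than `L`
  have small : ∀ T' : Finset ℕ, T' ⊆ T → ((∏ p ∈ T', p ^ v p : ℕ) : ℝ) < L ∨ T' = ∅ := by
    intro T'
    induction T' using Finset.induction_on with
    | empty => intro _; exact Or.inr rfl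
    | insert q T' hq ih =>
      intro hsub
      left
      have hqT : q ∈ T := hsub (Finset.mem_insert_self _ _)
      have hT'T : T' ⊆ T := (Finset.subset_insert _ _).trans hsub
      have hqp := hprime q hqT
      have hq2L : ((q ^ 2 : ℕ) : ℝ) < L := (Finset.mem_filter.1 hqT).2.2
      set s₀ := ∏ p ∈ T', p ^ v p with hs₀
      have hs₀L : (s₀ : ℝ) ≤ L := by
        rcases ih hT'T with h | h
        · exact h.le
        · rw [hs₀, h, Finset.prod_empty, Nat.cast_one]; exact hL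
      have hs₀pos : 0 < s₀ := Finset.prod_pos fun p hp => pow_pos (hprime p (hT'T hp)).pos _
      -- powerful divisors
      have hpw : ∀ e : ℕ, 2 ≤ e → e ≤ v q → Pw (s₀ * q ^ e) ∧ s₀ * q ^ e ∣ n := by
        intro e he1 he2
        constructor
        · refine ⟨(Nat.mul_pos hs₀pos (pow_pos hqp.pos _)).ne', fun r hr hrd => ?_⟩
          rcases (Nat.Prime.dvd_mul hr).1 hrd with h | h
          · rw [hs₀, hr.prime.dvd_finsetProd_iff] at h
            obtain ⟨p, hp, hrp⟩ := h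
            have h2 : r = p := (Nat.prime_dvd_prime_iff_eq hr (hprime p (hT'T hp))).1
              (hr.dvd_of_dvd_pow hrp)
            subst h2
            refine Dvd.dvd.mul_right ?_ _
            refine dvd_trans (pow_dvd_pow _ (hv2 _ (hT'T hp))) ?_
            exact Finset.dvd_prod_of_mem (fun p => p ^ v p) hp
          · have h2 : r = q := (Nat.prime_dvd_prime_iff_eq hr hqp).1 (hr.dvd_of_dvd_pow h)
            subst h2
            exact Dvd.dvd.mul_left (pow_dvd_pow _ he1) _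
        · have h1 : (∏ p ∈ insert q T', p ^ v p) ∣ n := hfac _ (hsub.trans hTsub)
          rw [Finset.prod_insert hq, mul_comm] at h1
          exact (Nat.mul_dvd_mul_left _ (pow_dvd_pow _ he2)).trans h1
      have hq0 : (1 : ℝ) ≤ q := by exact_mod_cast hqp.pos
      have hqL : (q : ℝ) < L := by
        refine lt_of_le_of_lt ?_ hq2L
        push_cast
        nlinarith
      have step : ∀ e : ℕ, 2 ≤ e → e ≤ v q → ((s₀ * q ^ e : ℕ) : ℝ) < L := by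
        intro e he1
        induction e, he1 using Nat.le_induction with
        | base =>
          intro he2
          obtain ⟨h1, h2⟩ := hpw 2 le_rfl he2
          rcases hno _ h1 h2 with h3 | h3
          · exact h3
          · exfalso
            have h4 : ((s₀ * q ^ 2 : ℕ) : ℝ) ≤ L * L := by
              rw [Nat.cast_mul]
              exact mul_le_mul hs₀L hq2L.le (Nat.cast_nonneg _) (by linarith)
            nlinarith
        | succ e he1 ihe =>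
          intro he2
          obtain ⟨h1, h2⟩ := hpw (e + 1) (by omega) he2
          rcases hno _ h1 h2 with h3 | h3
          · exact h3
          · exfalso
            have h5 := ihe (by omega)
            have h4 : ((s₀ * q ^ (e + 1) : ℕ) : ℝ) ≤ L * L := by
              rw [pow_succ, ← mul_assoc, Nat.cast_mul]
              exact mul_le_mul h5.le hqL.le (Nat.cast_nonneg _) (by linarith)
            nlinarith
      rw [Finset.prod_insert hq, mul_comm]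
      exact step (v q) (hv2 q hqT) le_rfl
  have hTL : ((∏ p ∈ T, p ^ v p : ℕ) : ℝ) ≤ L := by
    rcases small T (Finset.Subset.refl _) with h | h
    · exact h.le
    · rw [h, Finset.prod_empty, Nat.cast_one]; exact hL
  -- the large primes
  have hbig : ∀ p ∈ n.primeFactors \ T, v p ≤ m := by
    intro p hp
    rw [Finset.mem_sdiff] at hp
    obtain ⟨hp1, hp2⟩ := hp
    have hpp := Nat.prime_of_mem_primeFactors hp1
    by_contra hcon
    push Not at hcon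
    have hvp : n.factorization p = v p := rfl
    have hp2n : p ^ 2 ∣ n := (hpp.pow_dvd_iff_le_factorization hn).2 (by omega)
    have h1 : ¬ ((p ^ 2 : ℕ) : ℝ) < L := fun h => hp2 (by
      rw [hT, Finset.mem_filter]
      exact ⟨hp1, hp2n, h⟩)
    have hPw : Pw (p ^ 2) := ⟨(pow_pos hpp.pos _).ne', fun r hr hrd => by
      rw [(Nat.prime_dvd_prime_iff_eq hr hpp).1 (hr.dvd_of_dvd_pow hrd)]⟩
    have h2 : U < ((p ^ 2 : ℕ) : ℝ) := (hno _ hPw hp2n).resolve_left h1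
    have h3 : p ^ (m + 1) ≤ n := Nat.le_of_dvd (Nat.pos_of_ne_zero hn)
      ((hpp.pow_dvd_iff_le_factorization hn).2 (by omega))
    have h4 : ((p : ℝ) ^ (m + 1)) ≤ n := by exact_mod_cast h3
    have hU0 : 0 < U := by nlinarith
    have h5 : U ^ (m + 1) ≤ ((p : ℝ) ^ 2) ^ (m + 1) :=
      pow_le_pow_left₀ hU0.le (by push_cast at h2; exact h2.le) _
    have h6 : ((p : ℝ) ^ 2) ^ (m + 1) = ((p : ℝ) ^ (m + 1)) ^ 2 := by
      rw [← pow_mul, ← pow_mul, mul_comm]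
    have h7 : ((p : ℝ) ^ (m + 1)) ^ 2 ≤ (n : ℝ) ^ 2 := pow_le_pow_left₀ (by positivity) h4 _
    linarith
  have hsplit : (∏ p ∈ T, p ^ v p) * (∏ p ∈ n.primeFactors \ T, p ^ v p) = n := by
    rw [mul_comm, Finset.prod_sdiff hTsub, hnprod]
  have h1 : (∏ p ∈ n.primeFactors \ T, p ^ v p) ≤ rd n ^ m := by
    unfold rd
    rw [← Finset.prod_pow]
    refine (Finset.prod_le_prod' fun p hp => ?_).trans
      (Finset.prod_le_prod_of_subset_of_one_le' (f := fun p => p ^ m) Finset.sdiff_subset ?_)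
    · have hpp := Nat.prime_of_mem_primeFactors (Finset.sdiff_subset hp)
      exact Nat.pow_le_pow_right hpp.pos (hbig p hp)
    · intro p hp _
      exact Nat.one_le_pow _ _ (Nat.prime_of_mem_primeFactors hp).pos
  calc (n : ℝ) = (((∏ p ∈ T, p ^ v p) * (∏ p ∈ n.primeFactors \ T, p ^ v p) : ℕ) : ℝ) := by
        rw [hsplit]
    _ = ((∏ p ∈ T, p ^ v p : ℕ) : ℝ) * ((∏ p ∈ n.primeFactors \ T, p ^ v p : ℕ) : ℝ) := by
        rw [Nat.cast_mul]
    _ ≤ L * ((rd n ^ m : ℕ) : ℝ) :=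
        mul_le_mul hTL (by exact_mod_cast h1) (Nat.cast_nonneg _) (by linarith)
    _ = _ := by push_cast; ring

end Pool.Agent.Helper19K9.Sq
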