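import Pool.Agent.H510R2.Div

/-!
Simple roots of a polynomial modulo `s`.
-/

set_option autoImplicit false
set_option linter.all false
set_option maxHeartbeats 4000000

namespace Pool.Agent.Helper19K9.Sq

open Polynomial

theorem roots_card (f : ℤ[X]) (a : ℕ) (ha : f.natDegree ≤ a) (s : ℕ) (hs : s ≠ 0) :
    ((Finset.range s).filter fun t : ℕ => (s : ℤ) ∣ f.eval (t : ℤ) ∧
      IsCoprime (s : ℤ) (f.derivative.eval (t : ℤ))).card ≤ a ^ s.primeFactors.card := by
  classical
  set R := (Finset.range s).filter fun t : ℕ => (s : ℤ) ∣ f.eval (t : ℤ) ∧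
      IsCoprime (s : ℤ) (f.derivative.eval (t : ℤ)) with hR
  rcases R.eq_empty_or_nonempty with he | ⟨t₀, ht₀⟩
  · rw [he, Finset.card_empty]; exact Nat.zero_le _
  rw [hR, Finset.mem_filter] at ht₀
  have hndvd : ∀ p : ℕ, p.Prime → p ∣ s → ∀ u : ℤ, IsCoprime (s : ℤ) u → ¬ (p : ℤ) ∣ u := by
    intro p hp hps u hu hpu
    have h1 : IsCoprime (p : ℤ) (p : ℤ) :=
      (hu.of_isCoprime_of_dvd_left (Int.natCast_dvd_natCast.2 hps)).of_isCoprime_of_dvd_right hpu
    have h2 := Nat.isCoprime_iff_coprime.1 h1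
    rw [Nat.coprime_self] at h2
    exact hp.one_lt.ne' h2
  -- the target
  let S : (p : ℕ) → Finset (ZMod p) := fun p =>
    if hp : p.Prime then
      haveI : Fact p.Prime := ⟨hp⟩
      ((f.map (Int.castRingHom (ZMod p))).roots.toFinset)
    else ∅
  have hSc : ∀ p ∈ s.primeFactors, (S p).card ≤ a := by
    intro p hp
    rw [Nat.mem_primeFactors] at hp
    simp only [S, dif_pos hp.1]
    haveI : Fact p.Prime := ⟨hp.1⟩
    refine (Multiset.toFinset_card_le _).trans ((card_roots' _).trans ?_)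
    exact (natDegree_map_le).trans ha
  let φ : ℕ → ((p : ℕ) → p ∈ s.primeFactors → ZMod p) := fun t p _ => (t : ZMod p)
  have hmap : ∀ t ∈ R, φ t ∈ s.primeFactors.pi S := by
    intro t ht
    rw [hR, Finset.mem_filter] at ht
    rw [Finset.mem_pi]
    intro p hp
    rw [Nat.mem_primeFactors] at hp
    simp only [S, dif_pos hp.1]
    haveI : Fact p.Prime := ⟨hp.1⟩
    rw [Multiset.mem_toFinset, mem_roots']
    constructor
    · intro h0
      apply hndvd p hp.1 hp.2.1 _ ht.2.2
      have h1 : ((f.derivative.eval (t : ℤ) : ℤ) : ZMod p) = 0 := by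
        have h2 : ((f.map (Int.castRingHom (ZMod p))).derivative).eval (((t : ℤ) : ZMod p)) =
            ((f.derivative.eval (t : ℤ) : ℤ) : ZMod p) := by
          rw [derivative_map, Polynomial.eval_intCast_map]
          rfl
        rw [← h2, h0, derivative_zero, eval_zero]
      exact (ZMod.intCast_zmod_eq_zero_iff_dvd _ p).1 h1
    · rw [IsRoot]
      show (f.map (Int.castRingHom (ZMod p))).eval ((t : ℕ) : ZMod p) = 0
      have h2 : (f.map (Int.castRingHom (ZMod p))).eval (((t : ℤ) : ZMod p)) =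
            ((f.eval (t : ℤ) : ℤ) : ZMod p) := by
        rw [Polynomial.eval_intCast_map]
        rfl
      rw [← Int.cast_natCast, h2, ZMod.intCast_zmod_eq_zero_iff_dvd]
      exact (Int.natCast_dvd_natCast.2 hp.2.1).trans ht.2.1
  have hinj : Set.InjOn φ R := by
    intro t ht t' ht' h
    rw [Finset.mem_coe, hR, Finset.mem_filter] at ht ht'
    have hp' : ∀ p : ℕ, p.Prime → p ∣ s → (p : ℤ) ∣ (t : ℤ) - t' := by
      intro p hp hps
      have h1 := congrFun (congrFun h p) (Nat.mem_primeFactors.2 ⟨hp, hps, hs⟩)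
      have h2 : ((t : ℕ) : ZMod p) = ((t' : ℕ) : ZMod p) := h1
      rw [← ZMod.intCast_zmod_eq_zero_iff_dvd]
      push_cast
      rw [h2, sub_self]
    obtain ⟨k, hk⟩ := binomExpansion f (t' : ℤ) ((t : ℤ) - t')
    rw [add_sub_cancel] at hk
    set u : ℤ := f.derivative.eval (t' : ℤ) + k * ((t : ℤ) - t') with hu
    have h1 : (s : ℤ) ∣ u * ((t : ℤ) - t') := by
      have : u * ((t : ℤ) - t') = f.eval (t : ℤ) - f.eval (t' : ℤ) := by
        rw [hk, hu]; ring
      rw [this]
      exact dvd_sub ht.2.1 ht'.2.1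
    have hcop : IsCoprime (s : ℤ) u := by
      rw [Int.isCoprime_iff_gcd_eq_one]
      by_contra hne
      obtain ⟨p, hp, hpd⟩ := Nat.exists_prime_and_dvd hne
      have h3 : (p : ℤ) ∣ s := (Int.natCast_dvd_natCast.2 hpd).trans (Int.gcd_dvd_left _ _)
      have h4 : (p : ℤ) ∣ u := (Int.natCast_dvd_natCast.2 hpd).trans (Int.gcd_dvd_right _ _)
      have h5 : p ∣ s := Int.natCast_dvd_natCast.1 h3
      apply hndvd p hp h5 _ ht'.2.2
      have h6 : f.derivative.eval (t' : ℤ) = u - k * ((t : ℤ) - t') := by rw [hu]; ring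
      rw [h6]
      exact dvd_sub h4 ((hp' p hp h5).mul_left _)
    have h2 : (s : ℤ) ∣ (t : ℤ) - t' := hcop.dvd_of_dvd_mul_left h1
    have h3 := Finset.mem_range.1 ht.1
    have h4 := Finset.mem_range.1 ht'.1
    have h5 : (t : ℤ) - t' = 0 := by
      apply Int.eq_zero_of_abs_lt_dvd h2
      rw [abs_lt]
      constructor
      · omega
      · omega
    omega
  calc R.card ≤ (s.primeFactors.pi S).card := Finset.card_le_card_of_injOn φ hmap hinj
    _ = ∏ p ∈ s.primeFactors, (S p).card := Finset.card_pi _ _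
    _ ≤ ∏ p ∈ s.primeFactors, a := Finset.prod_le_prod' hSc
    _ = a ^ s.primeFactors.card := by rw [Finset.prod_const]

/-- `a ^ ω(s) = O(s ^ δ)` -/
theorem pow_omega (a : ℕ) {δ : ℝ} (hδ : 0 < δ) : ∃ C : ℝ, 0 < C ∧ ∀ s : ℕ, 1 ≤ s →
    ((a ^ s.primeFactors.card : ℕ) : ℝ) ≤ C * (s : ℝ) ^ δ := by
  obtain ⟨C, hC, h⟩ := H510R2.divisor_bound (δ / (a + 1)) (by positivity)
  refine ⟨max C 1 ^ (a + 1), by positivity, fun s hs => ?_⟩
  have hsR : (1 : ℝ) ≤ s := by exact_mod_cast hs
  have h1 : 2 ^ s.primeFactors.card ≤ s.divisors.card := by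
    rw [← Finset.card_powerset]
    refine Finset.card_le_card_of_injOn (fun T => ∏ p ∈ T, p) ?_ ?_
    · intro T hT
      rw [Finset.mem_coe, Finset.mem_powerset] at hT
      rw [Finset.mem_coe, Nat.mem_divisors]
      exact ⟨(Finset.prod_dvd_prod_of_subset _ _ _ hT).trans (Nat.prod_primeFactors_dvd s), by omega⟩
    · intro T hT T' hT' h
      rw [Finset.mem_coe, Finset.mem_powerset] at hT hT'
      have key : ∀ U : Finset ℕ, U ⊆ s.primeFactors → (∏ p ∈ U, p).primeFactors = U := by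
        intro U hU
        exact Nat.primeFactors_prod fun p hp => Nat.prime_of_mem_primeFactors (hU hp)
      rw [← key T hT, ← key T' hT']
      exact congrArg Nat.primeFactors h
  have h2 : a ^ s.primeFactors.card ≤ (2 ^ s.primeFactors.card) ^ (a + 1) := by
    rw [← pow_mul, mul_comm, pow_mul]
    refine Nat.pow_le_pow_left ?_ _
    have : a < 2 ^ a := Nat.lt_two_pow_self
    calc a ≤ 2 ^ a := this.le
      _ ≤ 2 ^ (a + 1) := Nat.pow_le_pow_right (by norm_num) (by omega)
  have h3 : ((a ^ s.primeFactors.card : ℕ) : ℝ) ≤ ((s.divisors.card : ℝ)) ^ (a + 1) := by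
    have := h2.trans (Nat.pow_le_pow_left h1 (a + 1))
    exact_mod_cast this
  refine h3.trans ?_
  calc ((s.divisors.card : ℝ)) ^ (a + 1) ≤ (max C 1 * (s : ℝ) ^ (δ / (a + 1))) ^ (a + 1) := by
        refine pow_le_pow_left₀ (Nat.cast_nonneg _) ((h s hs).trans ?_) _
        exact mul_le_mul_of_nonneg_right (le_max_left _ _) (by positivity)
    _ = max C 1 ^ (a + 1) * (s : ℝ) ^ δ := by
        rw [mul_pow, ← Real.rpow_natCast (_ ^ _), ← Real.rpow_mul (by linarith)]
        congr 2
        push_cast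
        field_simp

end Pool.Agent.Helper19K9.Sq
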